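import Pool.Agent.Helper79_WRA.Basic
import Pool.Agent.Helper79_WRA.Stmt
import Pool.Agent.Helper51_AWC.Defect
import Pool.Agent.Helper51_AWC.PiChar

/-!
WRA, module DZDET, part 1: central elements supported on the base group.
-/

open scoped BigOperators

noncomputable section

namespace Pool.Agent.Helper79_WRA.H62

open Pool.Agent.Helper51_AWC Pool.Agent.Helper79_WRA

/-- class functions act as scalars on irreducible representations -/
theorem irr_scalar {G : Type} [Group G] [Fintype G] {χ : G → ℂ} (hχ : χ ∈ Irr G) (Z : G → ℂ)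
    (hZ : ∀ g h, Z (h * g * h⁻¹) = Z g) (x : G) :
    ∑ y, Z y * χ (y * x) = (∑ y, Z y * χ y) / χ 1 * χ x := by
  have h1 := irr_one_ne hχ
  obtain ⟨n, ρ, hρ, rfl⟩ := hχ
  obtain ⟨c, hc⟩ := act_scalar ρ Z hZ
  have h2 := act_trace ρ Z
  rw [hc, map_smul, smul_eq_mul] at h2
  have h3 : LinearMap.trace ℂ (Fin n → ℂ) LinearMap.id = ρ.character 1 := by
    rw [Representation.character, map_one]; rfl
  rw [h3] at h2
  have h4 : LinearMap.trace ℂ (Fin n → ℂ) (act ρ Z * ρ x) = ∑ y, Z y * ρ.character (y * x) := by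
    unfold act
    rw [Finset.sum_mul, map_sum]
    refine Finset.sum_congr rfl fun y _ => ?_
    rw [smul_mul_assoc, map_smul, smul_eq_mul, ← map_mul]
    rfl
  rw [← h4, hc, ← h2, mul_div_assoc, div_self h1, mul_one]
  rw [smul_mul_assoc, map_smul, smul_eq_mul]
  rfl

/-- the sum over the classes -/
theorem val_classes {G : Type} [Group G] [Fintype G] [Fintype (ConjClasses G)] {F α : G → ℂ}
    (hF : ∀ g h, F (h * g * h⁻¹) = F g) :
    (∑ y, F y * α y) / α 1 =
      ∑ C : ConjClasses G, F (Quotient.out C) * omega (MonoidHom.id G) α (Quotient.out C) := by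
  classical
  rw [← Finset.sum_fiberwise Finset.univ (fun g : G => ConjClasses.mk g), Finset.sum_div]
  refine Finset.sum_congr rfl fun C _ => ?_
  have hC : ConjClasses.mk (Quotient.out C) = C := Quotient.out_eq C
  rw [omega_eq, ← mul_div_assoc, Finset.mul_sum, Finset.sum_filter]
  congr 1
  refine Finset.sum_congr rfl fun g _ => ?_
  have e : ConjClasses.mk g = C ↔ IsConj (Quotient.out C) g := by
    conv_lhs => rw [← hC]
    rw [ConjClasses.mk_eq_mk_iff_isConj]
    exact ⟨fun h => h.symm, fun h => h.symm⟩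
  by_cases h : IsConj (Quotient.out C) g
  · rw [if_pos (e.2 h), MonoidHom.id_apply, if_pos h]
    obtain ⟨c, hc⟩ := isConj_iff.1 h
    rw [← hc, hF]
  · rw [if_neg (fun hh => h (e.1 hh)), MonoidHom.id_apply, if_neg h, mul_zero]

theorem val_classes_integral {G : Type} [Group G] [Fintype G] {F α : G → ℂ}
    (hF : ∀ g h, F (h * g * h⁻¹) = F g) (hFi : ∀ g, IsIntegral ℤ (F g))
    (hα : ∀ g, IsIntegral ℤ (omega (MonoidHom.id G) α g)) :
    IsIntegral ℤ ((∑ y, F y * α y) / α 1) := by
  have : Fintype (ConjClasses G) := Fintype.ofFinite _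
  rw [val_classes hF]
  apply IsIntegral.sum
  intro C _
  exact (hFi _).mul (hα _)

theorem red_val_classes {G : Type} [Group G] [Fintype G] [Fintype (ConjClasses G)]
    (M : Ideal (integralClosure ℤ ℂ)) {F α : G → ℂ}
    (hF : ∀ g h, F (h * g * h⁻¹) = F g) (hFi : ∀ g, IsIntegral ℤ (F g))
    (hα : ∀ g, IsIntegral ℤ (omega (MonoidHom.id G) α g)) :
    red M ((∑ y, F y * α y) / α 1) =
      ∑ C : ConjClasses G, red M (F (Quotient.out C)) * labF M α (Quotient.out C) := by
  rw [val_classes hF, red_sum]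
  · apply Finset.sum_congr rfl
    intro C _
    rw [red_mul (hFi _) (hα _)]
    rfl
  · intro C _
    exact (hFi _).mul (hα _)

open Classical in
/-- the indicator of a class -/
def indC {Γ : Type} [Group Γ] (g x : Γ) : ℂ := if IsConj g x then 1 else 0

open Classical in
/-- a class function is a combination of indicators of classes -/
theorem expand_classes {G : Type} [Group G] [Fintype (ConjClasses G)] {F : G → ℂ}
    (hF : ∀ g h, F (h * g * h⁻¹) = F g) (x : G) :
    F x = ∑ C : ConjClasses G, F (Quotient.out C) * indC (Quotient.out C) x := by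
  unfold indC
  have h1 : IsConj x (Quotient.out (ConjClasses.mk x)) :=
    ConjClasses.mk_eq_mk_iff_isConj.1 (Quotient.out_eq (ConjClasses.mk x)).symm
  have h2 : ∀ C : ConjClasses G, F (Quotient.out C) *
      (if IsConj (Quotient.out C) x then (1 : ℂ) else 0) =
      if C = ConjClasses.mk x then F x else 0 := by
    intro C
    by_cases hC : C = ConjClasses.mk x
    · subst hC
      rw [if_pos h1.symm, if_pos rfl, mul_one]
      obtain ⟨y, hy⟩ := isConj_iff.1 h1
      rw [← hy, hF]
    · rw [if_neg hC, if_neg, mul_zero]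
      intro h
      apply hC
      rw [← ConjClasses.mk_eq_mk_iff_isConj.2 h]
      exact (Quotient.out_eq C).symm
  rw [Finset.sum_congr rfl fun C _ => h2 C, Finset.sum_ite_eq']
  simp

section wreath
variable {G Ω L : Type} [Group G] [Group L] [MulAction L Ω]

open Classical in
/-- the central element of the base group attached to `f` -/
def zf [Fintype Ω] (f : G → ℂ) (x : Wreath G Ω L) : ℂ := if x.s = 1 then ∏ i, f (x.f i) else 0

theorem zf_class [Fintype Ω] {f : G → ℂ} (hf : ∀ g h, f (h * g * h⁻¹) = f g)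
    (x y : Wreath G Ω L) : zf f (y * x * y⁻¹) = zf f x := by
  unfold zf
  have e1 : (y * x * y⁻¹).s = 1 ↔ x.s = 1 := by
    rw [Wreath.conj_s]
    exact conj_eq_one_iff
  by_cases h : x.s = 1
  · rw [if_pos (e1.2 h), if_pos h]
    have e2 : ∀ i, f ((y * x * y⁻¹).f i) = f (x.f (y.s⁻¹ • i)) := by
      intro i
      rw [Wreath.conj_f, h]
      simp only [inv_one, mul_one, mul_inv_cancel, one_smul]
      exact hf _ _
    simp only [e2]
    exact Equiv.prod_comp (MulAction.toPerm (y.s⁻¹)) (fun i => f (x.f i))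
  · rw [if_neg (fun hh => h (e1.1 hh)), if_neg h]

omit [Group G] [MulAction L Ω] in
theorem zf_integral [Fintype Ω] {f : G → ℂ} (hf : ∀ g, IsIntegral ℤ (f g)) (x : Wreath G Ω L) :
    IsIntegral ℤ (zf f x) := by
  unfold zf
  split_ifs
  · exact IsIntegral.prod _ fun i _ => hf _
  · exact isIntegral_zero

open Classical in
theorem sum_base [Fintype (Wreath G Ω L)] [Fintype (Ω → G)] (A : Wreath G Ω L → ℂ) :
    ∑ x : Wreath G Ω L, (if x.s = 1 then A x else 0) = ∑ w : Ω → G, A (Wreath.base w) := by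
  rw [← Finset.sum_filter]
  symm
  apply Finset.sum_bij (fun (w : Ω → G) _ => (Wreath.base w : Wreath G Ω L))
  · intro w _
    rw [Finset.mem_filter]
    exact ⟨Finset.mem_univ _, rfl⟩
  · intro w _ w' _ h
    exact Wreath.base_injective h
  · intro x hx
    refine ⟨x.f, Finset.mem_univ _, ?_⟩
    exact Wreath.ext rfl (Finset.mem_filter.1 hx).2.symm
  · intro w _; rfl

/-- the scalar by which the central element acts on a representation lying over `∏ αs i` -/
theorem val_zf [Finite G] [Fintype Ω] [Finite L] [Fintype G] [Fintype (Wreath G Ω L)]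
    {f : G → ℂ} (hf : ∀ g h, f (h * g * h⁻¹) = f g) {χ : Wreath G Ω L → ℂ}
    (hχ : χ ∈ Irr (Wreath G Ω L)) {αs : Ω → G → ℂ} (hαs : ∀ i, αs i ∈ Irr G)
    (hl : LiesOver χ αs) :
    (∑ x, zf f x * χ x) / χ 1 = ∏ i, (∑ y, f y * αs i y) / αs i 1 := by
  classical
  set c : ℂ := (∑ x, zf f x * χ x) / χ 1 with hc
  let ψ : (Ω → G) → ℂ := piChar αs
  have hψ : ψ ∈ Irr (Ω → G) := piChar_mem hαs
  let ZB : (Ω → G) → ℂ := fun w => ∏ i, f (w i)
  have hZB : ∀ w x : Ω → G, ZB (x * w * x⁻¹) = ZB w := by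
    intro w x
    show ∏ i, f ((x * w * x⁻¹) i) = ∏ i, f (w i)
    refine Finset.prod_congr rfl fun i _ => ?_
    exact hf _ _
  set ω : ℂ := (∑ w, ZB w * ψ w) / ψ 1 with hω
  have hS : ∑ z : Ω → G, χ (Wreath.base z) * ψ z⁻¹ ≠ 0 := by
    unfold LiesOver at hl
    rw [finsum_eq_sum_of_fintype] at hl
    exact hl
  have h1 : ∀ x : Ω → G, ∑ y : Ω → G, ZB y * χ (Wreath.base (y * x)) = c * χ (Wreath.base x) := by
    intro x
    rw [hc, ← irr_scalar hχ (zf f) (fun g h => zf_class hf g h) (Wreath.base x)]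
    have hb := sum_base (fun t : Wreath G Ω L => (∏ i, f (t.f i)) * χ (t * Wreath.base x))
    refine Eq.trans ?_ (hb.symm.trans ?_)
    · refine Finset.sum_congr rfl fun w _ => ?_
      rw [map_mul]
      rfl
    · refine Finset.sum_congr rfl fun t _ => ?_
      unfold zf
      split_ifs
      · rfl
      · rw [zero_mul]
  have h2 : ∀ z : Ω → G, ∑ y : Ω → G, ZB y * ψ (z⁻¹ * y) = ω * ψ z⁻¹ := by
    intro z
    rw [hω, ← irr_scalar hψ ZB hZB]
    refine Finset.sum_congr rfl fun y _ => ?_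
    rw [irr_mul_comm hψ]
  have h3 : ∑ x : Ω → G, (∑ y : Ω → G, ZB y * χ (Wreath.base (y * x))) * ψ x⁻¹ =
      ∑ z : Ω → G, χ (Wreath.base z) * ∑ y : Ω → G, ZB y * ψ (z⁻¹ * y) := by
    simp only [Finset.sum_mul, Finset.mul_sum]
    rw [Finset.sum_comm]
    conv_rhs => rw [Finset.sum_comm]
    refine Finset.sum_congr rfl fun y _ => ?_
    rw [← Equiv.sum_comp (Equiv.mulLeft y)
      (fun z => χ (Wreath.base z) * (ZB y * ψ (z⁻¹ * y)))]
    refine Finset.sum_congr rfl fun x _ => ?_
    have e : (y * x)⁻¹ * y = x⁻¹ := by group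
    simp only [Equiv.coe_mulLeft, e]
    ring
  have h4 : c * ∑ z : Ω → G, χ (Wreath.base z) * ψ z⁻¹ =
      ω * ∑ z : Ω → G, χ (Wreath.base z) * ψ z⁻¹ := by
    calc c * ∑ z : Ω → G, χ (Wreath.base z) * ψ z⁻¹ =
          ∑ x : Ω → G, (∑ y : Ω → G, ZB y * χ (Wreath.base (y * x))) * ψ x⁻¹ := by
          rw [Finset.mul_sum]
          refine Finset.sum_congr rfl fun x _ => ?_
          rw [h1]; ring
      _ = ∑ z : Ω → G, χ (Wreath.base z) * ∑ y : Ω → G, ZB y * ψ (z⁻¹ * y) := h3
      _ = ω * ∑ z : Ω → G, χ (Wreath.base z) * ψ z⁻¹ := by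
          rw [Finset.mul_sum]
          refine Finset.sum_congr rfl fun z _ => ?_
          rw [h2]; ring
  rw [mul_right_cancel₀ hS h4, hω, Finset.prod_div_distrib]
  congr 1
  rw [← sum_pi_prod (fun i y => f y * αs i y)]
  refine Finset.sum_congr rfl fun w _ => ?_
  show (∏ i, f (w i)) * ∏ i, αs i (w i) = _
  rw [← Finset.prod_mul_distrib]

end wreath

end Pool.Agent.Helper79_WRA.H62
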