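import Pool.Agent.Helper79_WRA.Basic
import Mathlib.FieldTheory.Finite.Basic
import Mathlib.Algebra.MvPolynomial.Funext

/-!
WRA, module DZDET, part 2: the residue field is infinite of characteristic `ℓ`; additive
polynomials.
-/

open scoped BigOperators

noncomputable section

namespace Pool.Agent.Helper79_WRA.H62

open Pool.Agent.Helper51_AWC Pool.Agent.Helper79_WRA

theorem infinite_FF (M : Ideal (integralClosure ℤ ℂ)) [hM : M.IsMaximal] : Infinite (FF M) := by
  by_contra hcon
  rw [not_infinite_iff_finite] at hcon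
  have hfield : IsField (FF M) := (Ideal.Quotient.maximal_ideal_iff_isField_quotient M).1 hM
  let _ : Field (FF M) := hfield.toField
  have _ : Finite (FF M) := hcon
  let _ : Fintype (FF M) := Fintype.ofFinite _
  have hN : 1 < Fintype.card (FF M) := Fintype.one_lt_card
  set N := Fintype.card (FF M) with hNdef
  obtain ⟨r, hr⟩ : ∃ r : ℂ, r ^ N - r + 1 = 0 := by
    have hdeg : (Polynomial.X ^ N - Polynomial.X + Polynomial.C 1 : Polynomial ℂ).degree ≠ 0 := by
      have h1 : (Polynomial.X ^ N - Polynomial.X + Polynomial.C 1 : Polynomial ℂ).natDegree = N := by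
        rw [show (Polynomial.X ^ N - Polynomial.X + Polynomial.C 1 : Polynomial ℂ) =
          Polynomial.X ^ N + (-Polynomial.X + Polynomial.C 1) by ring]
        rw [Polynomial.natDegree_add_eq_left_of_natDegree_lt, Polynomial.natDegree_X_pow]
        rw [Polynomial.natDegree_X_pow]
        refine lt_of_le_of_lt ?_ hN
        refine (Polynomial.natDegree_add_le _ _).trans ?_
        simp
      intro h
      have h2 := Polynomial.natDegree_eq_zero_iff_degree_le_zero.2 h.le
      rw [h1] at h2
      omega
    obtain ⟨r, hr⟩ := IsAlgClosed.exists_root _ hdeg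
    refine ⟨r, ?_⟩
    simpa [Polynomial.IsRoot] using hr
  have hint : IsIntegral ℤ r := by
    refine ⟨Polynomial.X ^ N + (-Polynomial.X + Polynomial.C 1), ?_, ?_⟩
    · apply Polynomial.monic_X_pow_add
      refine lt_of_le_of_lt (Polynomial.degree_add_le _ _) ?_
      rw [Polynomial.degree_neg, Polynomial.degree_X, max_lt_iff]
      constructor
      · exact_mod_cast hN
      · refine lt_of_le_of_lt Polynomial.degree_C_le ?_
        exact_mod_cast (zero_lt_one.trans hN)
    · simp only [Polynomial.eval₂_add, Polynomial.eval₂_pow, Polynomial.eval₂_X,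
        Polynomial.eval₂_neg, Polynomial.eval₂_one, map_one]
      linear_combination hr
  have h0 : (⟨r, hint⟩ : integralClosure ℤ ℂ) ^ N - ⟨r, hint⟩ + 1 = 0 := by
    apply Subtype.ext
    exact hr
  have h1 := congrArg (Ideal.Quotient.mk M) h0
  rw [map_add, map_sub, map_pow, map_one, map_zero] at h1
  have h2 : (Ideal.Quotient.mk M ⟨r, hint⟩) ^ N = Ideal.Quotient.mk M ⟨r, hint⟩ :=
    FiniteField.pow_card (K := FF M) _
  rw [h2, sub_self, zero_add] at h1
  exact one_ne_zero h1

/-- nonzero additive polynomials have a common non-zero -/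
theorem exists_nonzero {F σ J : Type} [CommRing F] [IsDomain F] [Infinite F] [Finite σ]
    [Fintype J] (c : J → σ → F) (s : J → ℕ) (hs : ∀ j, s j ≠ 0) (hc : ∀ j, ∃ C, c j C ≠ 0)
    [Fintype σ] : ∃ t : σ → F, ∀ j, ∑ C, c j C * t C ^ s j ≠ 0 := by
  classical
  let P : J → MvPolynomial σ F := fun j =>
    ∑ C, MvPolynomial.monomial (Finsupp.single C (s j)) (c j C)
  have hP : ∀ j, P j ≠ 0 := by
    intro j h0
    obtain ⟨C, hC⟩ := hc j
    apply hC
    have h1 : MvPolynomial.coeff (Finsupp.single C (s j)) (P j) = c j C := by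
      show MvPolynomial.coeff _ (∑ C, MvPolynomial.monomial (Finsupp.single C (s j)) (c j C)) = _
      rw [MvPolynomial.coeff_sum, Finset.sum_eq_single C]
      · rw [MvPolynomial.coeff_monomial, if_pos rfl]
      · intro D _ hD
        rw [MvPolynomial.coeff_monomial, if_neg]
        intro h
        exact hD ((Finsupp.single_left_inj (hs j)).1 h)
      · intro h; exact absurd (Finset.mem_univ _) h
    rw [← h1, h0, MvPolynomial.coeff_zero]
  have hprod : ∏ j, P j ≠ 0 := Finset.prod_ne_zero_iff.2 fun j _ => hP j
  obtain ⟨t, ht⟩ : ∃ t : σ → F, MvPolynomial.eval t (∏ j, P j) ≠ 0 := by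
    by_contra hcon
    push Not at hcon
    apply hprod
    apply MvPolynomial.funext
    intro x
    rw [hcon x, map_zero]
  refine ⟨t, fun j => ?_⟩
  rw [map_prod] at ht
  have := Finset.prod_ne_zero_iff.1 ht j (Finset.mem_univ j)
  have e : MvPolynomial.eval t (P j) = ∑ C, c j C * t C ^ s j := by
    show MvPolynomial.eval t (∑ C, MvPolynomial.monomial (Finsupp.single C (s j)) (c j C)) = _
    rw [map_sum]
    refine Finset.sum_congr rfl fun C _ => ?_
    rw [MvPolynomial.eval_monomial]
    simp
  rwa [e] at this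

end Pool.Agent.Helper79_WRA.H62
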