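import Pool.Agent.Helper62_WRA.Dz1
import Pool.Agent.Helper62_WRA.Dz2

/-!
WRA, module DZDET.
-/

open scoped BigOperators

noncomputable section

namespace Pool.Agent.Helper79_WRA.H62

open Pool.Agent.Helper51_AWC Pool.Agent.Helper79_WRA

theorem card_centralizer_conj {G : Type} [Group G] (g h : G) :
    Nat.card (Subgroup.centralizer {h * g * h⁻¹} : Subgroup G) =
      Nat.card (Subgroup.centralizer {g} : Subgroup G) := by
  apply Nat.card_congr
  refine ⟨fun x => ⟨h⁻¹ * x * h, ?_⟩, fun x => ⟨h * x * h⁻¹, ?_⟩, ?_, ?_⟩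
  · have := x.2
    rw [Subgroup.mem_centralizer_singleton_iff] at this ⊢
    have e : (h⁻¹ * (x : G) * h) * g = h⁻¹ * ((x : G) * (h * g * h⁻¹)) * h := by group
    rw [e, this]
    group
  · have := x.2
    rw [Subgroup.mem_centralizer_singleton_iff] at this ⊢
    have e : (h * (x : G) * h⁻¹) * (h * g * h⁻¹) = h * ((x : G) * g) * h⁻¹ := by group
    rw [e, this]
    group
  · intro x; apply Subtype.ext; simp [mul_assoc]
  · intro x; apply Subtype.ext; simp [mul_assoc]

theorem labF_class {G : Type} [Group G] {M : Ideal (integralClosure ℤ ℂ)} (a : G → ℂ)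
    {g h : G} (hgh : IsConj g h) : labF M a g = labF M a h := by
  unfold labF omega
  have e : ∀ x, IsConj g ((MonoidHom.id G) x) ↔ IsConj h ((MonoidHom.id G) x) :=
    fun x => ⟨fun h' => hgh.symm.trans h', fun h' => hgh.trans h'⟩
  simp only [e]

/-- DZDET -/
theorem dzdet : DzDetStmt := by
  intro ℓ hℓp M hM hℓM G Ω L Δ K _ _ _ _ _ _ _ _ _ _ q κ ι hq hκ hι hfib χ hχ αs hαs hl hi v α lam
    hα hext hlam hgood
  have hgood' : ∀ g : Wreath G Ω L, Cong M (val (fun t : Wreath G Δ K => indC g (ι t))
      (eta v α lam)) (omega (MonoidHom.id _) χ g) := hgood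
  classical
  have := Fintype.ofFinite G
  have : Fintype (Wreath G Ω L) := Fintype.ofFinite _
  have : Fintype (Wreath G Δ K) := Fintype.ofFinite _
  have : Fintype (ConjClasses G) := Fintype.ofFinite _
  have : Fintype (ConjClasses (Wreath G Ω L)) := Fintype.ofFinite _
  have hMp : M.IsPrime := hM.isPrime
  have hfield : IsField (FF M) := (Ideal.Quotient.maximal_ideal_iff_isField_quotient M).1 hM
  have hdom : IsDomain (FF M) := Ideal.Quotient.isDomain M
  have hinf : Infinite (FF M) := infinite_FF M
  by_contra hcon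
  push Not at hcon
  -- the exponents
  let s : Δ → ℕ := fun j => (Finset.univ.filter (fun i => q i = j)).card
  have hs0 : ∀ j, s j ≠ 0 := by
    intro j
    obtain ⟨i, hi⟩ := hq j
    exact Finset.card_ne_zero.2 ⟨i, by simp [hi]⟩
  let S : G → Prop := fun g => ¬ ℓ ∣ Nat.card (Subgroup.centralizer {g} : Subgroup G)
  let c : Δ → ConjClasses G → FF M := fun j C =>
    if S (Quotient.out C) then labF M (α j) (Quotient.out C) else 0
  have hout : ∀ g : G, IsConj g (Quotient.out (ConjClasses.mk g)) := fun g =>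
    ConjClasses.mk_eq_mk_iff_isConj.1 (Quotient.out_eq (ConjClasses.mk g)).symm
  have hSconj : ∀ g h : G, S (h * g * h⁻¹) ↔ S g := by
    intro g h
    show ¬ _ ↔ ¬ _
    rw [card_centralizer_conj]
  have hSC : ∀ g h : G, IsConj g h → (S g ↔ S h) := by
    intro g h hgh
    obtain ⟨x, rfl⟩ := isConj_iff.1 hgh
    exact (hSconj g x).symm
  have hc : ∀ j, ∃ C, c j C ≠ 0 := by
    intro j
    obtain ⟨g, hg1, hg2⟩ := hcon j
    refine ⟨ConjClasses.mk g, ?_⟩
    show (if S (Quotient.out (ConjClasses.mk g)) then _ else _) ≠ _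
    rw [if_pos ((hSC _ _ (hout g)).1 hg1), ← labF_class (α j) (hout g)]
    exact hg2
  obtain ⟨t, ht⟩ := exists_nonzero c s hs0 hc
  -- the class function
  have hlift : ∀ x : FF M, ∃ z : integralClosure ℤ ℂ, Ideal.Quotient.mk M z = x :=
    Ideal.Quotient.mk_surjective
  choose lift hlift using hlift
  let f : G → ℂ := fun g => if S g then (lift (t (ConjClasses.mk g)) : ℂ) else 0
  have hf : ∀ g h, f (h * g * h⁻¹) = f g := by
    intro g h
    show (if S (h * g * h⁻¹) then _ else _) = if S g then _ else _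
    have e : ConjClasses.mk (h * g * h⁻¹) = ConjClasses.mk g :=
      ConjClasses.mk_eq_mk_iff_isConj.2 (isConj_iff.2 ⟨h, rfl⟩ : IsConj g _).symm
    rw [e]
    simp only [hSconj]
  have hfi : ∀ g, IsIntegral ℤ (f g) := by
    intro g
    show IsIntegral ℤ (if S g then (lift (t (ConjClasses.mk g)) : ℂ) else 0)
    split_ifs
    · exact (lift _).2
    · exact isIntegral_zero
  have hredf : ∀ g, red M (f g) = if S g then t (ConjClasses.mk g) else 0 := by
    intro g
    show red M (if S g then (lift (t (ConjClasses.mk g)) : ℂ) else 0) = _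
    split_ifs
    · rw [red_of (lift _).2]
      exact hlift _
    · exact red_zero
  -- the value at `χ`
  have hχval := val_zf hf hχ hαs hl
  have hαsint : ∀ i g, IsIntegral ℤ (omega (MonoidHom.id G) (αs i) g) := fun i g =>
    omega_integral _ (hαs i) g
  have hfac : ∀ i, IsIntegral ℤ ((∑ y, f y * αs i y) / αs i 1) := fun i =>
    val_classes_integral hf hfi (hαsint i)
  have hzero : red M ((∑ x, zf f x * χ x) / χ 1) = 0 := by
    rw [hχval, red_prod _ _ fun i _ => hfac i]
    obtain ⟨i, hi⟩ := hi
    refine Finset.prod_eq_zero (Finset.mem_univ i) ?_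
    rw [red_val_classes M hf hfi (hαsint i)]
    refine Finset.sum_eq_zero fun C _ => ?_
    rw [hredf]
    split_ifs with hS
    · rw [hi _ hS, mul_zero]
    · rw [zero_mul]
  -- the value at `eta`
  have hη1 : eta v α lam (1 : Wreath G Δ K) = (∏ j, α j 1) * lam 1 := by
    have h1 : ext K v α (1 : Wreath G Δ K) = ∏ j, α j 1 := by
      have := hext.base 1
      rw [map_one] at this
      exact this
    show ext K v α 1 * lam 1 = _
    rw [h1]
  have hlam1 : lam 1 ≠ 0 := IrrS_one_ne hlam
  have hηval : val (fun t : Wreath G Δ K => zf f (ι t)) (eta v α lam) =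
      ∏ j, (∑ y, f y ^ s j * α j y) / α j 1 := by
    rw [val_eq, hη1]
    have h1 : ∀ t : Wreath G Δ K, zf f (ι t) * eta v α lam t =
        if t.s = 1 then (∏ j, f (t.f j) ^ s j) * (ext K v α t * lam t.s) else 0 := by
      intro t
      unfold zf
      rw [hι]
      have e1 : κ t.s = 1 ↔ t.s = 1 := by
        rw [← map_one κ]; exact hκ.eq_iff
      by_cases h : t.s = 1
      · rw [if_pos (e1.2 h), if_pos h]
        congr 1
        show ∏ i, f (t.f (q i)) = _
        rw [← Finset.prod_fiberwise Finset.univ q]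
        refine Finset.prod_congr rfl fun j _ => ?_
        rw [Finset.prod_congr rfl (g := fun _ => f (t.f j)) (fun i hi => by
          rw [(Finset.mem_filter.1 hi).2]), Finset.prod_const]
      · rw [if_neg (fun hh => h (e1.1 hh)), if_neg h, zero_mul]
    rw [Finset.sum_congr rfl fun t _ => h1 t,
      sum_base (fun t : Wreath G Δ K => (∏ j, f (t.f j) ^ s j) * (ext K v α t * lam t.s))]
    have h2 : ∀ w : Δ → G, (∏ j, f ((Wreath.base w : Wreath G Δ K).f j) ^ s j) *
        (ext K v α (Wreath.base w) * lam (Wreath.base w : Wreath G Δ K).s) =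
        (∏ j, (f (w j) ^ s j * α j (w j))) * lam 1 := by
      intro w
      rw [hext.base w, Finset.prod_mul_distrib, Wreath.base_f, Wreath.base_s]
      ring
    rw [Finset.sum_congr rfl fun w _ => h2 w, ← Finset.sum_mul,
      mul_div_mul_right _ _ hlam1, Finset.prod_div_distrib]
    congr 1
    exact sum_pi_prod (fun j y => f y ^ s j * α j y)
  -- the congruence
  have hcong : Cong M (val (fun t : Wreath G Δ K => zf f (ι t)) (eta v α lam))
      ((∑ x, zf f x * χ x) / χ 1) := by
    have e1 : ∀ t : Wreath G Δ K, zf f (ι t) =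
        ∑ C : ConjClasses (Wreath G Ω L), zf f (Quotient.out C) *
          indC (Quotient.out C) (ι t) := fun t =>
      expand_classes (fun g h => zf_class hf g h) (ι t)
    have e2 : val (fun t : Wreath G Δ K => zf f (ι t)) (eta v α lam) =
        ∑ C : ConjClasses (Wreath G Ω L), zf f (Quotient.out C) *
          val (fun t : Wreath G Δ K => indC (Quotient.out C) (ι t)) (eta v α lam) := by
      simp only [val_eq]
      simp only [← mul_div_assoc, ← Finset.sum_div]
      congr 1
      simp only [e1, Finset.sum_mul, Finset.mul_sum]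
      rw [Finset.sum_comm]
      refine Finset.sum_congr rfl fun C _ => Finset.sum_congr rfl fun t _ => ?_
      rw [mul_assoc]
    rw [e2, val_classes (fun g h => zf_class hf g h)]
    refine Cong.sum _ _ _ fun C _ => ?_
    exact (hgood' (Quotient.out C)).mul_left (zf_integral hfi _)
  -- the contradiction
  have hαint : ∀ j g, IsIntegral ℤ (omega (MonoidHom.id G) (α j) g) := fun j g =>
    omega_IrrS_integral (hα j) g
  have hfs : ∀ j g h, f (h * g * h⁻¹) ^ s j = f g ^ s j := fun j g h => by rw [hf]
  have hfacj : ∀ j, IsIntegral ℤ ((∑ y, f y ^ s j * α j y) / α j 1) := fun j =>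
    val_classes_integral (F := fun y => f y ^ s j) (hfs j) (fun g => (hfi g).pow _) (hαint j)
  have hχint : IsIntegral ℤ ((∑ x, zf f x * χ x) / χ 1) := by
    rw [hχval]
    exact IsIntegral.prod _ fun i _ => hfac i
  have hηint : IsIntegral ℤ (val (fun t : Wreath G Δ K => zf f (ι t)) (eta v α lam)) := by
    rw [hηval]
    exact IsIntegral.prod _ fun j _ => hfacj j
  have h9 := (red_eq_iff (M := M) hηint hχint).2 hcong
  rw [hzero, hηval, red_prod _ _ fun j _ => hfacj j] at h9
  obtain ⟨j, _, hj⟩ := Finset.prod_eq_zero_iff.1 h9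
  apply ht j
  rw [red_val_classes M (F := fun y => f y ^ s j) (hfs j) (fun g => (hfi g).pow _) (hαint j)] at hj
  rw [← hj]
  refine Finset.sum_congr rfl fun C _ => ?_
  have hC : ConjClasses.mk (Quotient.out C) = C := Quotient.out_eq C
  rw [red_pow (hfi _), hredf, hC]
  show (if S (Quotient.out C) then labF M (α j) (Quotient.out C) else 0) * t C ^ s j = _
  by_cases hS : S (Quotient.out C)
  · rw [if_pos hS, if_pos hS, mul_comm]
  · rw [if_neg hS, if_neg hS, zero_pow (hs0 j), zero_mul, zero_mul]

end Pool.Agent.Helper79_WRA.H62
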