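import Pool.Agent.Helper79_WRA.StmtB
import Pool.Agent.Helper83_WRA.Pos
import Pool.Agent.Helper62_WRA.Dzdet

/-!
WRA, stage B: families of characters of defect zero, their stabilisers and twists.
-/

open scoped BigOperators

noncomputable section

namespace Pool.Agent.Helper79_WRA.H62

open Pool.Agent.Helper51_AWC Pool.Agent.Helper79_WRA

section fam

variable {G Ω L : Type} [Group G] [Group L] [MulAction L Ω]

theorem mem_LL {β : Ω → G → ℂ} (hβ : ∀ i, β i ∈ Irr G) {h : L} :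
    h ∈ LL L β ↔ ∀ i, β (h⁻¹ • i) = β i := by
  rw [mem_topSt]
  constructor
  · intro H i
    obtain ⟨g, -, hg⟩ := H i
    funext y
    rw [← hg y]
    exact irr_conj (hβ i) y g
  · intro H j
    refine ⟨1, ?_, ?_⟩
    · intro R hR
      unfold triv at hR
      rw [Finset.mem_singleton] at hR
      subst hR
      exact conjS_one _
    · intro y
      rw [H j]
      simp

omit [Group L] [MulAction L Ω] in
theorem colStab_triv (j : Ω) : colStab (triv G Ω) j = ⊤ := by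
  ext g
  rw [mem_colStab]
  simp only [Subgroup.mem_top, iff_true]
  intro R hR
  unfold triv at hR
  rw [Finset.mem_singleton] at hR
  subst hR
  show conjS g ⊥ = ⊥
  unfold conjS
  rw [Subgroup.map_bot]

omit [Group L] [MulAction L Ω] in
theorem isChars_triv {α : Ω → G → ℂ} (hα : ∀ j, α j ∈ Irr G) : IsChars (triv G Ω) α := by
  intro j
  rw [colStab_triv, mem_IrrS_top]
  exact hα j

omit [Group G] in
theorem tr_tr (l l' : L) (β : Ω → G → ℂ) : tr l (tr l' β) = tr (l * l') β := by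
  funext i
  unfold tr
  rw [mul_inv_rev, mul_smul]

omit [Group G] in
theorem tr_one (β : Ω → G → ℂ) : tr (1 : L) β = β := by
  funext i
  unfold tr
  rw [inv_one, one_smul]

omit [Group G] in
theorem tr_inv_eq {l : L} {β β' : Ω → G → ℂ} (h : tr l β = β') : β = tr l⁻¹ β' := by
  rw [← h, tr_tr, inv_mul_cancel, tr_one]

omit [Group G] in
theorem tr_mem {S : Set (G → ℂ)} {l : L} {β : Ω → G → ℂ} (hβ : ∀ i, β i ∈ S) (i : Ω) :
    tr l β i ∈ S := hβ _

theorem mem_LL_iff_tr {β : Ω → G → ℂ} (hβ : ∀ i, β i ∈ Irr G) {h : L} :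
    h ∈ LL L β ↔ tr h β = β := by
  rw [mem_LL hβ]
  constructor
  · intro H; funext i; exact H i
  · intro H i; exact congrFun H i

theorem mem_LL_tr {β : Ω → G → ℂ} (hβ : ∀ i, β i ∈ Irr G) {l h : L} :
    h ∈ LL L (tr l β) ↔ l⁻¹ * h * l ∈ LL L β := by
  rw [mem_LL_iff_tr (fun i => tr_mem hβ i), mem_LL_iff_tr hβ, tr_tr]
  constructor
  · intro H
    have := congrArg (tr l⁻¹) H
    rw [tr_tr, tr_tr, inv_mul_cancel, tr_one, ← mul_assoc] at this
    exact this
  · intro H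
    have := congrArg (tr l) H
    rw [tr_tr] at this
    rw [← this]
    congr 1
    group

end fam

section char

variable {ℓ : ℕ} [hp : Fact ℓ.Prime] {M : Ideal (integralClosure ℤ ℂ)} [hM : M.IsMaximal]

theorem charP_FF (hℓ : (ℓ : integralClosure ℤ ℂ) ∈ M) : CharP (FF M) ℓ := by
  have : Nontrivial (FF M) := Ideal.Quotient.nontrivial_iff.2 hM.ne_top
  rw [CharP.charP_iff_prime_eq_zero hp.out]
  have : ((ℓ : ℕ) : FF M) = Ideal.Quotient.mk M (ℓ : integralClosure ℤ ℂ) := by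
    rw [map_natCast]
  rw [this]
  exact Ideal.Quotient.eq_zero_iff_mem.2 hℓ

theorem frob_inj (hℓ : (ℓ : integralClosure ℤ ℂ) ∈ M) (n : ℕ) {x y : FF M}
    (h : x ^ (ℓ ^ n) = y ^ (ℓ ^ n)) : x = y := by
  have := charP_FF (M := M) hℓ
  have hdom : IsDomain (FF M) := by
    have : M.IsPrime := hM.isPrime
    exact Ideal.Quotient.isDomain M
  have h1 : (x - y) ^ (ℓ ^ n) = 0 := by
    rw [sub_pow_char_pow, h, sub_self]
  have h2 := pow_eq_zero_iff (pow_ne_zero n hp.out.ne_zero) |>.1 h1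
  exact sub_eq_zero.1 h2

variable {G : Type} [Group G] [Finite G]

omit hp hM in
theorem dz_irr {ξ : G → ℂ} (h : ξ ∈ DZ ℓ M G) : ξ ∈ Irr G := h.1

theorem tw_inj (hdzu : DzuStmt) (hℓ : (ℓ : integralClosure ℤ ℂ) ∈ M) (hop : opCore ℓ G = ⊥)
    {ξ ξ' η : G → ℂ} {n : ℕ} (hξ : ξ ∈ DZ ℓ M G) (hξ' : ξ' ∈ DZ ℓ M G) (h : IsTw ℓ M n ξ η)
    (h' : IsTw ℓ M n ξ' η) : ξ = ξ' := by
  apply hdzu ℓ M hℓ G hop ξ hξ ξ' hξ'.1
  funext g
  apply frob_inj hℓ n
  rw [← h g, ← h' g]

theorem tw_fun (hdzu : DzuStmt) (hℓ : (ℓ : integralClosure ℤ ℂ) ∈ M) (hop : opCore ℓ G = ⊥)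
    {ξ η η' : G → ℂ} {n : ℕ} (hη : η ∈ DZ ℓ M G) (hη' : η' ∈ DZ ℓ M G) (h : IsTw ℓ M n ξ η)
    (h' : IsTw ℓ M n ξ η') : η = η' := by
  apply hdzu ℓ M hℓ G hop η hη η' hη'.1
  funext g
  rw [h g, h' g]

omit hp hM in
theorem codeg_int {ξ : G → ℂ} (hξ : ξ ∈ Irr G) : IsIntegral ℤ ((Nat.card G : ℂ) / ξ 1) := by
  have := Fintype.ofFinite G
  rw [Nat.card_eq_fintype_card]
  exact H83.codeg_integral hξ

omit hp hM in
theorem uu_int {Ω : Type} [Fintype Ω] {β : Ω → G → ℂ} (hβ : ∀ i, β i ∈ Irr G) :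
    IsIntegral ℤ (uu β) := IsIntegral.prod _ fun i _ => codeg_int (hβ i)

theorem uu_ne (hℓ : (ℓ : integralClosure ℤ ℂ) ∈ M) (hop : opCore ℓ G = ⊥)
    {Ω : Type} [Fintype Ω] {β : Ω → G → ℂ} (hβ : ∀ i, β i ∈ DZ ℓ M G) : ¬ Cong M (uu β) 0 := by
  have hMp : M.IsPrime := hM.isPrime
  have hdom : IsDomain (FF M) := Ideal.Quotient.isDomain M
  intro h
  have h1 : red M (uu β) = 0 := by
    rw [← red_zero (M := M), red_eq_iff (uu_int fun i => (hβ i).1) isIntegral_zero]
    exact h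
  unfold uu at h1
  rw [red_prod _ _ fun i _ => codeg_int (hβ i).1] at h1
  obtain ⟨i, _, hi⟩ := Finset.prod_eq_zero_iff.1 h1
  exact (hβ i).2 (((H83.pos ℓ M hℓ G hop).1 _ (hβ i).1).2 hi)

omit hp hM [Finite G] in
theorem uu_tr {Ω L : Type} [Fintype Ω] [Group L] [MulAction L Ω] (β : Ω → G → ℂ) (l : L) :
    uu (tr l β) = uu β := by
  unfold uu tr
  exact Equiv.prod_comp (MulAction.toPerm (l⁻¹)) (fun i => (Nat.card G : ℂ) / β i 1)

omit hp in
/-- cancellation modulo `M` -/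
theorem cong_cancel {u a b : ℂ} (hu : IsIntegral ℤ u) (hun : ¬ Cong M u 0) (ha : IsIntegral ℤ a)
    (hb : IsIntegral ℤ b) (h : Cong M (u * a) (u * b)) : Cong M a b := by
  have hMp : M.IsPrime := hM.isPrime
  rw [cong_iff_sub] at h ⊢
  rw [← mul_sub] at h
  exact (cong_mul_zero hu (ha.sub hb) h).resolve_left hun

end char

section val

/-- restriction of the sum to a subgroup -/
theorem sum_IrrS {K : Type} [Group K] [Fintype K] {V : Subgroup K} [Fintype V] {lam : K → ℂ}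
    (hlam : lam ∈ IrrS V) (F : K → ℂ) : ∑ x, F x * lam x = ∑ x : V, F x * lam x := by
  classical
  rw [← Finset.sum_filter_add_sum_filter_not Finset.univ (fun x => x ∈ V)]
  rw [Finset.sum_eq_zero (s := Finset.univ.filter (fun x => ¬ x ∈ V)), add_zero]
  · symm
    apply Finset.sum_bij (fun (x : V) _ => (x : K))
    · intro x _; simp
    · intro x _ y _ h; exact Subtype.ext h
    · intro x hx
      exact ⟨⟨x, (Finset.mem_filter.1 hx).2⟩, Finset.mem_univ _, rfl⟩
    · intro x _; rfl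
  · intro x hx
    rw [hlam.1 x (Finset.mem_filter.1 hx).2, mul_zero]

/-- integrality of `val` -/
theorem val_IrrS_integral {K : Type} [Group K] [Finite K] {V : Subgroup K} {lam : K → ℂ}
    (hlam : lam ∈ IrrS V) {F : K → ℂ} (hF : ∀ x, ∀ y ∈ V, F (y * x * y⁻¹) = F x)
    (hFi : ∀ x, IsIntegral ℤ (F x)) : IsIntegral ℤ (val F lam) := by
  classical
  have := Fintype.ofFinite K
  have := Fintype.ofFinite V
  rw [val_eq, sum_IrrS hlam]
  exact val_classes_integral (G := V) (F := fun x => F x) (α := fun x => lam x)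
    (fun g h => hF g h h.2) (fun g => hFi g) (fun g => omega_integral _ hlam.2 g)

/-- a finsum over a set as a value -/
theorem finsum_val {K : Type} [Group K] (P : K → Prop) [DecidablePred P] (lam : K → ℂ) :
    (∑ᶠ (x : K) (_ : P x), lam x) / lam 1 = val (fun x => if P x then 1 else 0) lam := by
  unfold val
  congr 1
  apply finsum_congr
  intro x
  rw [finsum_eq_if]
  beta_reduce
  by_cases h : P x
  · rw [if_pos h, if_pos h, one_mul]
  · rw [if_neg h, if_neg h, zero_mul]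

end val

end Pool.Agent.Helper79_WRA.H62
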