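import Pool.Agent.Helper62_WRA.Bma1

/-!
WRA, module BMA.
-/

open scoped BigOperators

noncomputable section

namespace Pool.Agent.Helper79_WRA.H62

open Pool.Agent.Helper51_AWC Pool.Agent.Helper79_WRA

open Classical in
/-- the indicator of a predicate -/
def indP {X : Type} (P : X → Prop) (x : X) : ℂ := if P x then 1 else 0

theorem indP_pos {X : Type} {P : X → Prop} {x : X} (h : P x) : indP P x = 1 := if_pos h

theorem indP_neg {X : Type} {P : X → Prop} {x : X} (h : ¬ P x) : indP P x = 0 := if_neg h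

theorem indP_congr {X Y : Type} {P : X → Prop} {Q : Y → Prop} {x : X} {y : Y}
    (h : P x ↔ Q y) : indP P x = indP Q y := by
  by_cases H : P x
  · rw [indP_pos H, indP_pos (h.1 H)]
  · rw [indP_neg H, indP_neg fun h' => H (h.2 h')]

theorem indP_int {X : Type} (P : X → Prop) (x : X) : IsIntegral ℤ (indP P x) := by
  unfold indP
  split_ifs
  · exact isIntegral_one
  · exact isIntegral_zero

/-- dropping the restriction to the centraliser -/
theorem drop_cent (hrestr : RestrStmt) {ℓ : ℕ} [Fact ℓ.Prime] {M : Ideal (integralClosure ℤ ℂ)}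
    [M.IsMaximal] (hℓM : (ℓ : integralClosure ℤ ℂ) ∈ M) {L : Type} [Group L] [Finite L]
    {c : Finset (Subgroup L)} (hc1 : ∀ D ∈ c, IsPGroup ℓ D) (hc2 : c.Nonempty)
    (hc3 : IsChain (· ≤ ·) (c : Set (Subgroup L))) {U : Subgroup L} (hcU : ∀ D ∈ c, D ≤ U)
    {V : Subgroup (stab c)} (hV : ∀ k : stab c, k ∈ V ↔ (k : L) ∈ U) {lam : stab c → ℂ}
    (hlam : lam ∈ IrrS V) {h : L} :
    Cong M ((∑ᶠ (k : stab c) (_ : ∃ u ∈ U, (k : L) = u * h * u⁻¹), lam k) / lam 1)
      ((∑ᶠ (k : stab c) (_ : (∀ p ∈ topP c, p * (k : L) = (k : L) * p) ∧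
        ∃ u ∈ U, (k : L) = u * h * u⁻¹), lam k) / lam 1) := by
  classical
  have := Fintype.ofFinite L
  -- the stabiliser of the chain in `U`
  have hmem : ∀ x : U, x ∈ stab (inU U c) ↔ (x : L) ∈ stab c := by
    intro x
    rw [mem_stab, mem_stab]
    constructor
    · intro H D hD
      have h1 := H (D.subgroupOf U) (Finset.mem_image_of_mem _ hD)
      rw [H46.conjS_subgroupOf, H46.subgroupOf_inj' (H46.conjS_le_of_mem (hcU D hD) x.2)
        (hcU D hD)] at h1
      exact h1
    · intro H E hE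
      obtain ⟨D, hD, rfl⟩ := Finset.mem_image.1 hE
      rw [H46.conjS_subgroupOf, H46.subgroupOf_inj' (H46.conjS_le_of_mem (hcU D hD) x.2)
        (hcU D hD)]
      exact H D hD
  let f1 : stab (inU U c) →* stab c :=
    (U.subtype.comp (stab (inU U c)).subtype).codRestrict (stab c)
      (fun x => (hmem (x : U)).1 x.2)
  have hf1 : ∀ x, ((f1 x : stab c) : L) = ((x : U) : L) := fun x => rfl
  let f2 : stab (inU U c) →* V := f1.codRestrict V (fun x => by
    rw [hV, hf1]; exact (x : U).2)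
  have hf2 : ∀ x, (((f2 x : V) : stab c) : L) = ((x : U) : L) := fun x => rfl
  have hbij : Function.Bijective f2 := by
    constructor
    · intro x y hxy
      apply Subtype.ext
      apply Subtype.ext
      rw [← hf2, hxy, hf2]
    · intro k
      have hk : ((k : stab c) : L) ∈ U := (hV _).1 k.2
      exact ⟨⟨⟨((k : stab c) : L), hk⟩, (hmem _).2 (k : stab c).2⟩, rfl⟩
  let φ : stab (inU U c) ≃* V := MulEquiv.ofBijective f2 hbij
  have hφ : ∀ x, (((φ x : V) : stab c) : L) = ((x : U) : L) := fun x => rfl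
  obtain ⟨a, ha, hae⟩ := exists_IrrS (stab (inU U c)) (irr_comp_equiv φ hlam.2)
  have ha1 : a 1 = lam 1 := by
    have := hae 1
    rw [Subgroup.coe_one] at this
    rw [this, map_one]
    rfl
  -- translation of sums
  have key : ∀ P : L → Prop, (∑ᶠ (k : stab c) (_ : P (k : L)), lam k) / lam 1 =
      val (fun x : U => indP P (x : L)) a := by
    intro P
    rw [finsum_val (fun k : stab c => P (k : L)), val_eq, val_eq, ha1]
    congr 1
    rw [sum_IrrS hlam, sum_IrrS ha]
    symm
    refine Fintype.sum_equiv φ.toEquiv _ _ ?_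
    intro x
    rw [hae]
    show indP P ((x : U) : L) * lam (φ x) =
      (if P (((φ x : V) : stab c) : L) then (1 : ℂ) else 0) * lam (φ x)
    rw [hφ]
    rfl
  have hΦ : ∀ x y : U, (fun x : U => indP (fun z => ∃ u ∈ U, z = u * h * u⁻¹) (x : L))
      (y * x * y⁻¹) = (fun x : U => indP (fun z => ∃ u ∈ U, z = u * h * u⁻¹) (x : L)) x := by
    intro x y
    have : (∃ u ∈ U, ((y * x * y⁻¹ : U) : L) = u * h * u⁻¹) ↔
        ∃ u ∈ U, (x : L) = u * h * u⁻¹ := by
      constructor
      · rintro ⟨u, hu, e⟩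
        refine ⟨(y : L)⁻¹ * u, U.mul_mem (U.inv_mem y.2) hu, ?_⟩
        have : (x : L) = (y : L)⁻¹ * ((y * x * y⁻¹ : U) : L) * y := by
          push_cast; group
        rw [this, e]; group
      · rintro ⟨u, hu, e⟩
        refine ⟨(y : L) * u, U.mul_mem y.2 hu, ?_⟩
        push_cast
        rw [e]; group
    exact indP_congr (P := fun z => ∃ u ∈ U, z = u * h * u⁻¹)
      (Q := fun z => ∃ u ∈ U, z = u * h * u⁻¹) this
  have hR := hrestr ℓ M hℓM U (inU U c) (by
    intro D hD
    obtain ⟨E, hE, rfl⟩ := Finset.mem_image.1 hD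
    exact (hc1 E hE).comap_of_injective U.subtype U.subtype_injective) (by
    intro D hD D' hD' hne
    obtain ⟨E, hE, rfl⟩ := Finset.mem_image.1 (Finset.mem_coe.1 hD)
    obtain ⟨E', hE', rfl⟩ := Finset.mem_image.1 (Finset.mem_coe.1 hD')
    rcases chain_total hc3 hE hE' with h1 | h1
    · exact Or.inl (Subgroup.comap_mono h1)
    · exact Or.inr (Subgroup.comap_mono h1)) a ha
    (fun x : U => indP (fun z => ∃ u ∈ U, z = u * h * u⁻¹) (x : L)) hΦ
    (fun x => indP_int _ _)
  rw [key (fun k => ∃ u ∈ U, k = u * h * u⁻¹),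
    key (fun k => (∀ p ∈ topP c, p * k = k * p) ∧ ∃ u ∈ U, k = u * h * u⁻¹)]
  refine hR.trans (Cong.of_eq ?_)
  congr 1
  funext x
  have hiff : (∀ D ∈ inU U c, ∀ y ∈ D, y * x = x * y) ↔
      ∀ p ∈ topP c, p * (x : L) = (x : L) * p := by
    constructor
    · intro H p hp
      have hPU : topP c ≤ U := hcU _ (H46.topP_mem hc2 hc3)
      have := H ((topP c).subgroupOf U) (Finset.mem_image_of_mem _ (H46.topP_mem hc2 hc3))
        ⟨p, hPU hp⟩ (Subgroup.mem_subgroupOf.2 hp)
      exact congrArg Subtype.val this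
    · intro H D hD y hy
      obtain ⟨E, hE, rfl⟩ := Finset.mem_image.1 hD
      apply Subtype.ext
      exact H _ (H46.le_topP hE (Subgroup.mem_subgroupOf.1 hy))
  by_cases H : ∀ p ∈ topP c, p * (x : L) = (x : L) * p
  · rw [if_pos (hiff.2 H)]
    exact indP_congr (P := fun z => ∃ u ∈ U, z = u * h * u⁻¹)
      (Q := fun k => (∀ p ∈ topP c, p * k = k * p) ∧ ∃ u ∈ U, k = u * h * u⁻¹)
      ⟨fun h => ⟨H, h⟩, fun h => h.2⟩
  · rw [if_neg (fun h => H (hiff.1 h))]
    exact (indP_neg (P := fun k => (∀ p ∈ topP c, p * k = k * p) ∧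
        ∃ u ∈ U, k = u * h * u⁻¹) fun h => H h.1).symm

/-- BMA -/
theorem bma (htest : TestStmt) (heqv : EqvStmt) (hrestr : RestrStmt) (hcls : ClsStmt)
    (hlam2 : Lambda2Stmt) (hdzu : DzuStmt) : BmaStmt := by
  intro ℓ _ M _ hℓM G _ _ hop Ω L _ _ _ _ χ αs μ hχ hαs hμ hval c hc β α htw lam hlam hgood
  classical
  have := Fintype.ofFinite L
  obtain ⟨hcs, hc2, hc3⟩ := mem_chainsOn.1 hc
  have hc1 : ∀ D ∈ c, IsPGroup ℓ D := fun D hD => (mem_psubIn.1 (hcs hD)).2
  have hne : c.Nonempty := ⟨_, hc2⟩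
  have hPmem : topP c ∈ c := H46.topP_mem hne hc3
  have hP : IsPGroup ℓ (topP c) := hc1 _ hPmem
  have hβI : ∀ i, β i ∈ Irr G := fun i => (htw.dz i).1
  have hαI : ∀ i, α i ∈ Irr G := fun i => (htw.dz' i).1
  have hαsI : ∀ i, αs i ∈ Irr G := fun i => (hαs i).1
  obtain ⟨-, -, -, -, -, -, -, hsit, -⟩ := hlam2 ℓ G Ω L c hc1 hne hc3
  have hT := htest ℓ M hℓM G hop Ω L (Dl c Ω) (stab c) (qq c) (stab c).subtype (iota c G Ω)
    (topP c) β α hsit htw lam hlam
    (fun Φ hΦ hΦi Ψ h1 h2 => restr_hyp hrestr hcls hlam2 hℓM hc1 hne hc3 hαI hlam Φ hΦ hΦi Ψ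
      h1 h2)
  obtain ⟨-, hE2, -⟩ := heqv G Ω L αs hαsI
  -- the fundamental congruence
  have hfund : ∀ h₀ ∈ LL L αs, Cong M (val (fun t => testT αs h₀ (iota c G Ω t)) (et α lam))
      (uu αs * ulab (LL L αs) μ h₀) := by
    intro h₀ hh
    obtain ⟨hcl, hint, -⟩ := hE2 h₀ hh
    have h1 := good_val hgood hcl hint
    rw [hval _ hcl] at h1
    exact h1.trans (test_self htest hℓM hop hαs hμ hh)
  -- `β` is in the orbit
  have hex : ∃ l : L, β = tr l αs := by
    by_contra hcon
    push Not at hcon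
    have h1 := hT.1 αs hαs (by
      intro l h
      exact hcon _ (tr_inv_eq h)) 1 (Subgroup.one_mem _)
    have h2 := (h1.symm.trans (hfund 1 (Subgroup.one_mem _))).symm
    apply uu_ne hℓM hop hαs
    have h3 : ulab (LL L αs) μ 1 = 1 := by
      unfold ulab
      rw [div_eq_one_iff_eq (IrrS_one_ne hμ)]
      rw [finsum_eq_single _ (1 : L)]
      · rw [finsum_eq_if, if_pos ⟨1, Subgroup.one_mem _, by group⟩]
      · intro x hx
        rw [finsum_eq_if, if_neg]
        rintro ⟨u, -, e⟩
        apply hx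
        rw [e]; group
    rwa [h3, mul_one] at h2
  refine ⟨hex, ?_⟩
  intro l hl h hh
  -- transport to `αs`
  have hh0 : l⁻¹ * h * l ∈ LL L αs := by
    rw [← mem_LL_tr hαsI, ← hl]; exact hh
  obtain ⟨-, -, hE3⟩ := hE2 _ hh0
  have hc' : l * (l⁻¹ * h * l) * l⁻¹ = h := by group
  have htt : testT β h = testT αs (l⁻¹ * h * l) := by
    rw [← hE3 l, hc', ← hl]
  have h1 := hT.2 h hh
  rw [htt] at h1
  have h2 := h1.symm.trans (hfund _ hh0)
  have huu : uu αs = uu β := by rw [hl, uu_tr]
  -- the label of the conjugate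
  have hlab : ulab (LL L αs) μ (l⁻¹ * h * l) =
      ulab (LL L β) (fun x => μ (l⁻¹ * x * l)) h := by
    unfold ulab
    have e1 : (fun x => μ (l⁻¹ * x * l)) 1 = μ 1 := by
      show μ (l⁻¹ * 1 * l) = μ 1
      congr 1; group
    rw [e1]
    congr 1
    rw [← finsum_comp_equiv (MulAut.conj l).symm.toEquiv]
    apply finsum_congr
    intro x
    have e2 : (MulAut.conj l).symm.toEquiv x = l⁻¹ * x * l := by
      show (MulAut.conj l).symm x = _
      rw [MulAut.conj_symm_apply]
    rw [e2]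
    refine finsum_congr_Prop (propext ?_) fun _ => rfl
    constructor
    · rintro ⟨u, hu, e⟩
      refine ⟨l * u * l⁻¹, ?_, ?_⟩
      · rw [hl, mem_LL_tr hαsI]
        have : l⁻¹ * (l * u * l⁻¹) * l = u := by group
        rw [this]; exact hu
      · have : x = l * (l⁻¹ * x * l) * l⁻¹ := by group
        rw [this, e]; group
    · rintro ⟨u, hu, e⟩
      refine ⟨l⁻¹ * u * l, ?_, ?_⟩
      · rw [← mem_LL_tr hαsI, ← hl]; exact hu
      · rw [e]; group
  rw [huu, hlab] at h2
  -- membership in the stabiliser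
  have hVU : ∀ k : stab c, k ∈ LL (stab c) α ↔ (k : L) ∈ LL L β := fun k =>
    H46.mem_LL_alpha hdzu hℓM hop hP htw k
  have hPU : topP c ≤ LL L β := by
    intro p hp
    rw [mem_LL hβI]
    intro j
    apply htw.fib
    rw [qq_eq_iff]
    exact ⟨p, hp, by rw [smul_inv_smul]⟩
  -- integrality
  have hint1 : IsIntegral ℤ ((∑ᶠ (k : stab c) (_ : (∀ p ∈ topP c,
      p * (stab c).subtype k = (stab c).subtype k * p) ∧
        ∃ u ∈ LL L β, (stab c).subtype k = u * h * u⁻¹), lam k) / lam 1) := by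
    rw [finsum_val]
    apply val_IrrS_integral hlam
    · intro x y hy
      have hyU := (hVU y).1 hy
      have hyP : ∀ p, p ∈ topP c ↔ (y : L)⁻¹ * p * y ∈ topP c := by
        intro p
        conv_lhs => rw [← conjS_topP y.2, mem_conjS]
      have : ((∀ p ∈ topP c, p * (stab c).subtype (y * x * y⁻¹) =
          (stab c).subtype (y * x * y⁻¹) * p) ∧
          ∃ u ∈ LL L β, (stab c).subtype (y * x * y⁻¹) = u * h * u⁻¹) ↔
          ((∀ p ∈ topP c, p * (stab c).subtype x = (stab c).subtype x * p) ∧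
          ∃ u ∈ LL L β, (stab c).subtype x = u * h * u⁻¹) := by
        simp only [map_mul, map_inv, Subgroup.coe_subtype]
        constructor
        · rintro ⟨H, u, hu, e⟩
          refine ⟨?_, (y : L)⁻¹ * u, Subgroup.mul_mem _ (Subgroup.inv_mem _ hyU) hu, ?_⟩
          · intro p hp
            have hp' : (y : L) * p * (y : L)⁻¹ ∈ topP c := by
              rw [hyP]
              have : (y : L)⁻¹ * ((y : L) * p * (y : L)⁻¹) * y = p := by group
              rw [this]; exact hp
            have := H _ hp'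
            calc p * (x : L) = (y : L)⁻¹ * (((y : L) * p * (y : L)⁻¹) *
                  ((y : L) * x * (y : L)⁻¹)) * y := by group
              _ = (y : L)⁻¹ * (((y : L) * x * (y : L)⁻¹) *
                  ((y : L) * p * (y : L)⁻¹)) * y := by rw [this]
              _ = (x : L) * p := by group
          · have : (x : L) = (y : L)⁻¹ * ((y : L) * x * (y : L)⁻¹) * y := by group
            rw [this, e]; group
        · rintro ⟨H, u, hu, e⟩
          refine ⟨?_, (y : L) * u, Subgroup.mul_mem _ hyU hu, ?_⟩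
          · intro p hp
            have := H _ ((hyP p).1 hp)
            calc p * ((y : L) * x * (y : L)⁻¹) =
                  (y : L) * (((y : L)⁻¹ * p * y) * x) * (y : L)⁻¹ := by group
              _ = (y : L) * (x * ((y : L)⁻¹ * p * y)) * (y : L)⁻¹ := by rw [this]
              _ = ((y : L) * x * (y : L)⁻¹) * p := by group
          · rw [e]; group
      simp only [this]
    · intro x
      split_ifs
      · exact isIntegral_one
      · exact isIntegral_zero
  have hμ' : (fun x => μ (l⁻¹ * x * l)) ∈ IrrS (LL L β) := by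
    have := ((heqv G Ω L αs hαsI).2.2 μ hμ l).1
    rw [hl]; exact this
  have hint2 : IsIntegral ℤ (ulab (LL L β) (fun x => μ (l⁻¹ * x * l)) h) := by
    unfold ulab
    rw [finsum_val (fun x => ∃ u ∈ LL L β, x = u * h * u⁻¹) (fun x => μ (l⁻¹ * x * l))]
    apply val_IrrS_integral hμ'
    · intro x y hy
      have : (∃ u ∈ LL L β, y * x * y⁻¹ = u * h * u⁻¹) ↔
          ∃ u ∈ LL L β, x = u * h * u⁻¹ := by
        constructor
        · rintro ⟨u, hu, e⟩
          refine ⟨y⁻¹ * u, Subgroup.mul_mem _ (Subgroup.inv_mem _ hy) hu, ?_⟩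
          have : x = y⁻¹ * (y * x * y⁻¹) * y := by group
          rw [this, e]; group
        · rintro ⟨u, hu, e⟩
          refine ⟨y * u, Subgroup.mul_mem _ hy hu, ?_⟩
          rw [e]; group
      simp only [this]
    · intro x
      split_ifs
      · exact isIntegral_one
      · exact isIntegral_zero
  have h3 := cong_cancel (uu_int hβI) (uu_ne hℓM hop htw.dz) hint1 hint2 h2
  exact (drop_cent hrestr hℓM hc1 hne hc3 (fun D hD => (H46.le_topP hD).trans hPU) hVU
    hlam).trans h3

end Pool.Agent.Helper79_WRA.H62
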