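import Pool.Agent.Helper62_WRA.Mzero3

/-!
WRA, module MZERO.
-/

open scoped BigOperators

noncomputable section

namespace Pool.Agent.Helper79_WRA.H62

open Pool.Agent.Helper51_AWC Pool.Agent.Helper79_WRA

section
variable {G Δ K : Type} [Group G] [Group K] [MulAction K Δ]

open Classical in
/-- the product of the orders of the column stabilisers outside of `ω` and at `j₀` -/
def wt [Fintype Δ] (ω : Set Δ) (j₀ : Δ) (v : Finset (Δ → Subgroup G)) : ℤ :=
  ∏ j, if j ∈ ω ∧ j ≠ j₀ then 1 else (Nat.card (colStab v j) : ℤ)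

variable {ω : Set Δ} {j₀ : Δ} {hj : j₀ ∈ ω} {g : Δ → G} {hg : g j₀ = 1}

open Classical in
theorem wt_psi [Fintype Δ] (d : Finset (Subgroup G × ({j // j ∉ ω} → Subgroup G))) :
    wt ω j₀ (d.map (psi ω j₀ hj g hg).toEmbedding) =
      (Nat.card (stab (im1 d)) : ℤ) *
        ∏ j : {j // j ∉ ω}, (Nat.card (colStab (im2 d) j) : ℤ) := by
  unfold wt
  have h1 : ∀ j : Δ, (if j ∈ ω ∧ j ≠ j₀ then (1 : ℤ) else
      (Nat.card (colStab (d.map (psi ω j₀ hj g hg).toEmbedding) j) : ℤ)) =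
      (if j = j₀ then (Nat.card (stab (im1 d)) : ℤ) else 1) *
      (if h : j ∉ ω then (Nat.card (colStab (im2 d) ⟨j, h⟩) : ℤ) else 1) := by
    intro j
    by_cases h : j ∈ ω
    · rw [dif_neg (not_not.2 h), mul_one]
      by_cases h' : j = j₀
      · subst h'
        rw [if_neg (fun hc => hc.2 rfl), if_pos rfl, colStab_psi_base]
      · rw [if_pos ⟨h, h'⟩, if_neg h']
    · have h' : j ≠ j₀ := fun hc => h (hc ▸ hj)
      rw [dif_pos h, if_neg h', one_mul, if_neg (fun hc => h hc.1), colStab_psi_neg d h]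
  rw [Finset.prod_congr rfl fun j _ => h1 j, Finset.prod_mul_distrib]
  congr 1
  · rw [Finset.prod_ite_eq' Finset.univ j₀]
    simp
  · rw [Finset.prod_dite, Finset.prod_const_one, mul_one]
    symm
    apply Finset.prod_bij (fun (j : {j // j ∉ ω}) _ =>
      (⟨j.1, by simp [j.2]⟩ : {x // x ∈ Finset.univ.filter (fun j => j ∉ ω)}))
    · intro j _; exact Finset.mem_attach _ _
    · intro i _ j _ h
      apply Subtype.ext
      have := congrArg Subtype.val h
      exact this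
    · intro j _
      have := (Finset.mem_filter.1 j.2).2
      exact ⟨⟨j.1, this⟩, Finset.mem_univ _, rfl⟩
    · intro j _; rfl

/-- the image of a chain under the first projection is a chain -/
theorem im1_chain {A B : Type*} [PartialOrder A] [PartialOrder B] {s : Finset A} {t : Finset B}
    {a : A} {b : B} {d : Finset (A × B)} (hd : d ∈ chainsOn (s ×ˢ t) (a, b)) :
    im1 d ∈ chainsOn s a := by
  obtain ⟨h1, h2, h3⟩ := mem_chainsOn.1 hd
  refine mem_chainsOn.2 ⟨?_, mem_im1.2 ⟨_, h2, rfl⟩, ?_⟩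
  · intro x hx
    obtain ⟨p, hp, rfl⟩ := mem_im1.1 hx
    exact (Finset.mem_product.1 (h1 hp)).1
  · intro x hx y hy hne
    obtain ⟨p, hp, rfl⟩ := mem_im1.1 (Finset.mem_coe.1 hx)
    obtain ⟨q, hq, rfl⟩ := mem_im1.1 (Finset.mem_coe.1 hy)
    rcases chain_total h3 hp hq with h | h
    · exact Or.inl h.1
    · exact Or.inr h.1

open Classical in
/-- the sum for fixed conjugating elements vanishes -/
theorem fixed_zero [Finite G] [Fintype Δ] {ℓ : ℕ} [Fact ℓ.Prime] {M : Ideal (integralClosure ℤ ℂ)}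
    {U : Subgroup K} (hω : ω = MulAction.orbit U j₀) (g : Δ → G) (hg : g j₀ = 1)
    {β : Δ → G → FF M} {P : (Δ → (G → FF M) × FF M) → Prop}
    (h1 : ∑ d ∈ chainsOn (psub ℓ G) ⊥, (-1) ^ (d.card + 1) * ((Nat.card (stab d) : ℤ) *
      (({a | a ∈ IrrS (stab d) ∧ labF M a = β j₀}.ncard : ℕ) : ℤ)) = 0)
    (h2 : ∀ d ∈ chainsOn (psub ℓ G) ⊥, ∀ a ∈ IrrS (stab d), labF M a = β j₀ →
      red M ((Nat.card (stab d) : ℂ) / a 1) = 0) :
    ∑ v ∈ chainsOn (boxes ℓ G Δ) (fun _ => ⊥), (-1) ^ (v.card + 1) * (wt ω j₀ v *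
      (((charsOf v).filter (fun α => (U ≤ topSt K v α ∧ (∀ j, labF M (α j) = β j) ∧
        P (dat M v α)) ∧ ∀ j ∈ ω, Carry v α j₀ j (g j))).card : ℤ)) = 0 := by
  have hj : j₀ ∈ ω := by rw [hω]; exact MulAction.mem_orbit_self j₀
  by_cases hβ : ∀ j ∈ ω, β j = β j₀
  swap
  · apply Finset.sum_eq_zero
    intro v _
    have : (charsOf v).filter (fun α => (U ≤ topSt K v α ∧ (∀ j, labF M (α j) = β j) ∧
        P (dat M v α)) ∧ ∀ j ∈ ω, Carry v α j₀ j (g j)) = ∅ := by
      rw [Finset.filter_eq_empty_iff]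
      rintro α _ ⟨⟨_, hlab, _⟩, hc⟩
      apply hβ
      intro j hjω
      rw [← hlab j, ← hlab j₀]
      exact labF_conj (hc j hjω).2
    rw [this]; simp
  rw [sum_chains_filter (boxes ℓ G Δ) (fun _ => ⊥) (fun R => ∀ j ∈ ω, conjS (g j) (R j₀) = R j)]
  swap
  · rintro v _ ⟨R, hR, hn⟩
    have : (charsOf v).filter (fun α => (U ≤ topSt K v α ∧ (∀ j, labF M (α j) = β j) ∧
        P (dat M v α)) ∧ ∀ j ∈ ω, Carry v α j₀ j (g j)) = ∅ := by
      rw [Finset.filter_eq_empty_iff]
      rintro α _ ⟨_, hc⟩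
      exact hn fun j hjω => (hc j hjω).1 R hR
    rw [this]; simp
  have e1 := map_psi (ω := ω) (j₀ := j₀) (hj := hj) (g := g) (hg := hg) (G := G) ℓ
  have e2 := psi_bot (ω := ω) (j₀ := j₀) (hj := hj) (g := g) (hg := hg)
  rw [← e1, ← e2, sum_chainsOn_map]
  have e3 : ∀ d ∈ chainsOn (psub ℓ G ×ˢ boxes ℓ G {j // j ∉ ω}) (⊥, fun _ => ⊥),
      (-1) ^ ((d.map (psi ω j₀ hj g hg).toEmbedding).card + 1) *
        (wt ω j₀ (d.map (psi ω j₀ hj g hg).toEmbedding) *
      (((charsOf (d.map (psi ω j₀ hj g hg).toEmbedding)).filter (fun α =>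
        (U ≤ topSt K (d.map (psi ω j₀ hj g hg).toEmbedding) α ∧ (∀ j, labF M (α j) = β j) ∧
        P (dat M (d.map (psi ω j₀ hj g hg).toEmbedding) α)) ∧
        ∀ j ∈ ω, Carry (d.map (psi ω j₀ hj g hg).toEmbedding) α j₀ j (g j))).card : ℤ)) =
      (-1) ^ (d.card + 1) * (fun (c : Finset (Subgroup G))
        (c' : Finset ({j // j ∉ ω} → Subgroup G)) =>
        ((Nat.card (stab c) : ℤ) *
          ((((IrrS_finite (stab c)).toFinset.filter (fun a => labF M a = β j₀)).card : ℕ) : ℤ)) *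
        ((∏ j : {j // j ∉ ω}, (Nat.card (colStab c' j) : ℤ)) *
          ((((charsOf c').filter (fun α => Bc ω U c' α ∧
            (∀ j : {j // j ∉ ω}, labF M (α j) = β j) ∧
            P (dext M ω (β j₀) c' α))).card : ℕ) : ℤ))) (im1 d) (im2 d) := by
    intro d hd
    rw [Finset.card_map, wt_psi, card_chars hω hβ (im1_chain hd) h2]
    push_cast
    ring
  rw [Finset.sum_congr rfl e3]
  have e4 := sum_prod_chains (psub ℓ G) ⊥ (boxes ℓ G {j // j ∉ ω}) (fun _ => ⊥)
    (fun x _ => bot_le) (fun y _ => fun j => bot_le) (fun (c : Finset (Subgroup G))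
        (c' : Finset ({j // j ∉ ω} → Subgroup G)) =>
        ((Nat.card (stab c) : ℤ) *
          ((((IrrS_finite (stab c)).toFinset.filter (fun a => labF M a = β j₀)).card : ℕ) : ℤ)) *
        ((∏ j : {j // j ∉ ω}, (Nat.card (colStab c' j) : ℤ)) *
          ((((charsOf c').filter (fun α => Bc ω U c' α ∧
            (∀ j : {j // j ∉ ω}, labF M (α j) = β j) ∧
            P (dext M ω (β j₀) c' α))).card : ℕ) : ℤ)))
  refine e4.trans ?_
  have e5 : ∀ c ∈ chainsOn (psub ℓ G) ⊥,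
      (({a | a ∈ IrrS (stab c) ∧ labF M a = β j₀}.ncard : ℕ) : ℤ) =
        ((((IrrS_finite (stab c)).toFinset.filter (fun a => labF M a = β j₀)).card : ℕ) : ℤ) := by
    intro c _
    congr 1
    rw [← Set.ncard_coe_finset]
    congr 1
    ext a
    simp
  rw [Finset.sum_comm]
  apply Finset.sum_eq_zero
  intro c' _
  have e6 : ∀ c ∈ chainsOn (psub ℓ G) ⊥, (-1) ^ (c.card + 1) * (-1) ^ (c'.card + 1) *
      (((Nat.card (stab c) : ℤ) *
          ((((IrrS_finite (stab c)).toFinset.filter (fun a => labF M a = β j₀)).card : ℕ) : ℤ)) *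
        ((∏ j : {j // j ∉ ω}, (Nat.card (colStab c' j) : ℤ)) *
          ((((charsOf c').filter (fun α => Bc ω U c' α ∧
            (∀ j : {j // j ∉ ω}, labF M (α j) = β j) ∧
            P (dext M ω (β j₀) c' α))).card : ℕ) : ℤ))) =
      ((-1) ^ (c.card + 1) * ((Nat.card (stab c) : ℤ) *
      (({a | a ∈ IrrS (stab c) ∧ labF M a = β j₀}.ncard : ℕ) : ℤ))) *
      ((-1) ^ (c'.card + 1) * ((∏ j : {j // j ∉ ω}, (Nat.card (colStab c' j) : ℤ)) *
          ((((charsOf c').filter (fun α => Bc ω U c' α ∧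
            (∀ j : {j // j ∉ ω}, labF M (α j) = β j) ∧
            P (dext M ω (β j₀) c' α))).card : ℕ) : ℤ))) := by
    intro c hc
    rw [e5 c hc]
    ring
  rw [Finset.sum_congr rfl e6, ← Finset.sum_mul, h1, zero_mul]

open Classical in
/-- counting the conjugating elements -/
theorem count_carry [Finite G] [Fintype (Δ → G)] [Fintype Δ] {U : Subgroup K}
    (hω : ω = MulAction.orbit U j₀)
    {v : Finset (Δ → Subgroup G)} {α : Δ → G → ℂ} (hα : IsChars v α) (hU : U ≤ topSt K v α) :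
    (∏ j, (Nat.card (colStab v j) : ℤ)) *
        (∏ j, if j ∈ ω ∧ j ≠ j₀ then (1 : ℤ) else (Nat.card G : ℤ)) =
      wt ω j₀ v * (((Finset.univ : Finset (Δ → G)).filter (fun g => ∀ j ∈ ω,
        Carry v α j₀ j (Function.update g j₀ 1 j))).card : ℤ) := by
  have := Fintype.ofFinite G
  have e1 : (Finset.univ : Finset (Δ → G)).filter (fun g => ∀ j ∈ ω,
      Carry v α j₀ j (Function.update g j₀ 1 j)) =
      Fintype.piFinset (fun j => (Finset.univ : Finset G).filter (fun x =>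
        (j ∈ ω ∧ j ≠ j₀) → Carry v α j₀ j x)) := by
    ext g
    rw [Finset.mem_filter, Fintype.mem_piFinset]
    constructor
    · rintro ⟨_, h⟩ j
      rw [Finset.mem_filter]
      refine ⟨Finset.mem_univ _, fun hj => ?_⟩
      have := h j hj.1
      rwa [Function.update_of_ne hj.2] at this
    · intro h
      refine ⟨Finset.mem_univ _, fun j hjω => ?_⟩
      by_cases hj : j = j₀
      · subst hj
        rw [Function.update_self]
        exact Carry.refl v α j
      · rw [Function.update_of_ne hj]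
        exact (Finset.mem_filter.1 (h j)).2 ⟨hjω, hj⟩
  rw [e1, Fintype.card_piFinset]
  push_cast
  unfold wt
  rw [← Finset.prod_mul_distrib, ← Finset.prod_mul_distrib]
  refine Finset.prod_congr rfl fun j _ => ?_
  by_cases hj : j ∈ ω ∧ j ≠ j₀
  · rw [if_pos hj, if_pos hj, mul_one, one_mul]
    obtain ⟨x, hx⟩ := carry_orbit hU (hω ▸ hj.1)
    rw [← card_carry hα hx, Nat.card_eq_fintype_card, Fintype.card_subtype]
    congr 2
    ext y
    simp [hj]
  · rw [if_neg hj, if_neg hj]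
    congr 1
    have : (Finset.univ : Finset G).filter (fun x => (j ∈ ω ∧ j ≠ j₀) → Carry v α j₀ j x) =
        Finset.univ := by
      rw [Finset.filter_eq_self]
      intro x _ hc
      exact absurd hc hj
    rw [this, Finset.card_univ, Nat.card_eq_fintype_card]

end

/-- MZERO -/
theorem mzero : MZeroStmt := by
  intro ℓ _ G Δ K _ _ _ _ _ _ M U j₀ β P _ h1 h2
  classical
  have : Fintype (Δ → G) := Fintype.ofFinite _
  have hK : (∏ j : Δ, if j ∈ MulAction.orbit U j₀ ∧ j ≠ j₀ then (1 : ℤ) else (Nat.card G : ℤ)) ≠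
      0 := by
    refine Finset.prod_ne_zero_iff.2 fun j _ => ?_
    split_ifs
    · exact one_ne_zero
    · exact_mod_cast Nat.card_pos.ne'
  have hmain : (∑ v ∈ chainsOn (boxes ℓ G Δ) (fun _ => ⊥), (-1) ^ (v.card + 1) *
      ∑ α ∈ (charsOf v).filter (fun α => U ≤ topSt K v α ∧ (∀ j, labF M (α j) = β j) ∧
        P (dat M v α)), ∏ j, (Nat.card (colStab v j) : ℤ)) *
      (∏ j : Δ, if j ∈ MulAction.orbit U j₀ ∧ j ≠ j₀ then (1 : ℤ) else (Nat.card G : ℤ)) =
      ∑ g : Δ → G, ∑ v ∈ chainsOn (boxes ℓ G Δ) (fun _ => ⊥), (-1) ^ (v.card + 1) *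
        (wt (MulAction.orbit U j₀) j₀ v *
      (((charsOf v).filter (fun α => (U ≤ topSt K v α ∧ (∀ j, labF M (α j) = β j) ∧
        P (dat M v α)) ∧ ∀ j ∈ MulAction.orbit U j₀,
          Carry v α j₀ j (Function.update g j₀ 1 j))).card : ℤ)) := by
    rw [Finset.sum_comm, Finset.sum_mul]
    refine Finset.sum_congr rfl fun v _ => ?_
    rw [← Finset.mul_sum, mul_assoc, ← Finset.mul_sum]
    congr 1
    rw [Finset.sum_mul]
    have e1 : ∀ α ∈ (charsOf v).filter (fun α => U ≤ topSt K v α ∧ (∀ j, labF M (α j) = β j) ∧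
        P (dat M v α)), (∏ j, (Nat.card (colStab v j) : ℤ)) *
        (∏ j : Δ, if j ∈ MulAction.orbit U j₀ ∧ j ≠ j₀ then (1 : ℤ) else (Nat.card G : ℤ)) =
        wt (MulAction.orbit U j₀) j₀ v * ∑ g : Δ → G, if (∀ j ∈ MulAction.orbit U j₀,
          Carry v α j₀ j (Function.update g j₀ 1 j)) then (1 : ℤ) else 0 := by
      intro α hα
      rw [Finset.mem_filter, mem_charsOf] at hα
      rw [count_carry rfl hα.1 hα.2.1, Finset.sum_boole]
    rw [Finset.sum_congr rfl e1, ← Finset.mul_sum]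
    congr 1
    rw [Finset.sum_comm]
    refine Finset.sum_congr rfl fun g _ => ?_
    rw [Finset.sum_boole, Finset.filter_filter]
  have h0 := hmain.trans (Finset.sum_eq_zero fun g _ => ?_)
  · rcases mul_eq_zero.1 h0 with h | h
    · exact h
    · exact absurd h hK
  · exact fixed_zero rfl (Function.update g j₀ 1) (Function.update_self _ _ _) h1 h2

end Pool.Agent.Helper79_WRA.H62
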