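import Pool.Agent.Helper62_WRA.Fam
import Pool.Agent.Helper46_WRA.Res1

/-!
WRA, module BMA, part 1.
-/

open scoped BigOperators

noncomputable section

namespace Pool.Agent.Helper79_WRA.H62

open Pool.Agent.Helper51_AWC Pool.Agent.Helper79_WRA

/-- the block condition for all class functions -/
theorem good_val {Λ Γ : Type} [Group Λ] [Group Γ] [Finite Λ] [Finite Γ]
    {M : Ideal (integralClosure ℤ ℂ)} {ι : Λ →* Γ} {χ : Γ → ℂ} {η : Λ → ℂ}
    (h : Good M (clas ι) (fun g => omega (MonoidHom.id _) χ g) η) {Φ : Γ → ℂ}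
    (hΦ : ∀ x y, Φ (y * x * y⁻¹) = Φ x) (hΦi : ∀ x, IsIntegral ℤ (Φ x)) :
    Cong M (val (fun t => Φ (ι t)) η) (val Φ χ) := by
  have h' : ∀ g : Γ, Cong M (val (fun t : Λ => indC g (ι t)) η)
      (omega (MonoidHom.id _) χ g) := h
  classical
  have := Fintype.ofFinite Λ
  have := Fintype.ofFinite Γ
  have : Fintype (ConjClasses Γ) := Fintype.ofFinite _
  have e2 : val (fun t => Φ (ι t)) η =
      ∑ C : ConjClasses Γ, Φ (Quotient.out C) *
        val (fun t => indC (Quotient.out C) (ι t)) η := by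
    simp only [val_eq]
    simp only [← mul_div_assoc, ← Finset.sum_div]
    congr 1
    have e1 : ∀ t, Φ (ι t) * η t =
        ∑ C : ConjClasses Γ, Φ (Quotient.out C) * indC (Quotient.out C) (ι t) * η t := by
      intro t
      rw [expand_classes hΦ (ι t), Finset.sum_mul]
    rw [Finset.sum_congr rfl fun t _ => e1 t, Finset.sum_comm]
    refine Finset.sum_congr rfl fun C _ => ?_
    rw [Finset.mul_sum]
    refine Finset.sum_congr rfl fun t _ => ?_
    rw [mul_assoc]
  rw [e2, val_eq, val_classes hΦ]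
  refine Cong.sum _ _ _ fun C _ => ?_
  exact (h' (Quotient.out C)).mul_left (hΦi _)

section main

variable {ℓ : ℕ} [Fact ℓ.Prime] {M : Ideal (integralClosure ℤ ℂ)} [M.IsMaximal]
variable {G Ω L : Type} [Group G] [Finite G] [Fintype Ω] [Group L] [Finite L] [MulAction L Ω]

omit [Finite G] [Fintype Ω] [Finite L] in
/-- the top element commutes with the image of `t` iff its component does -/
theorem iota_comm {c : Finset (Subgroup L)} {p : L} (hp : p ∈ topP c)
    (t : Wreath G (Dl c Ω) (stab c)) :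
    (Wreath.top p : Wreath G Ω L) * iota c G Ω t = iota c G Ω t * Wreath.top p ↔
      p * (t.s : L) = (t.s : L) * p := by
  constructor
  · intro h
    exact congrArg Wreath.s h
  · intro h
    apply Wreath.ext
    · funext i
      rw [Wreath.mul_f, Wreath.mul_f, Wreath.top_f, Wreath.top_f, one_mul, mul_one, Wreath.top_s,
        iota_apply]
      show t.f (qq c (p⁻¹ • i)) = t.f (qq c i)
      congr 1
      rw [qq_eq_iff]
      exact ⟨p, hp, by rw [smul_inv_smul]⟩
    · exact h

/-- the hypothesis of TEST -/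
theorem restr_hyp (hrestr : RestrStmt) (hcls : ClsStmt) (hlam2 : Lambda2Stmt)
    (hℓM : (ℓ : integralClosure ℤ ℂ) ∈ M) {c : Finset (Subgroup L)}
    (hc1 : ∀ D ∈ c, IsPGroup ℓ D) (hc2 : c.Nonempty)
    (hc3 : IsChain (· ≤ ·) (c : Set (Subgroup L))) {α : Dl c Ω → G → ℂ}
    (hα : ∀ j, α j ∈ Irr G) {lam : stab c → ℂ} (hlam : lam ∈ IrrS (LL (stab c) α))
    (Φ : Wreath G Ω L → ℂ) (hΦ : ∀ x y, Φ (y * x * y⁻¹) = Φ x) (hΦi : ∀ x, IsIntegral ℤ (Φ x))
    (Ψ : Wreath G (Dl c Ω) (stab c) → ℂ)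
    (h1 : ∀ t, (∀ p ∈ topP c, p * (stab c).subtype t.s = (stab c).subtype t.s * p) →
      Ψ t = Φ (iota c G Ω t))
    (h2 : ∀ t, ¬ (∀ p ∈ topP c, p * (stab c).subtype t.s = (stab c).subtype t.s * p) →
      Ψ t = 0) :
    Cong M (val (fun t => Φ (iota c G Ω t)) (et α lam)) (val Ψ (et α lam)) := by
  classical
  have hfG := Fintype.ofFinite (Wreath G Ω L)
  have hfΛ := Fintype.ofFinite (Wreath G (Dl c Ω) (stab c))
  obtain ⟨-, hle, hinj, hpg, hch, hran, -, -, -⟩ := hlam2 ℓ G Ω L c hc1 hc2 hc3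
  obtain ⟨θ, hθ, hval, -, -⟩ := (hcls G (Dl c Ω) (stab c)).1 α hα lam hlam
  -- Ψ is a class function
  have hΨ : ∀ x y, Ψ (y * x * y⁻¹) = Ψ x := by
    intro x y
    have key : ∀ x y : Wreath G (Dl c Ω) (stab c),
        (∀ p ∈ topP c, p * (stab c).subtype x.s = (stab c).subtype x.s * p) →
        ∀ p ∈ topP c, p * (stab c).subtype (y * x * y⁻¹).s =
          (stab c).subtype (y * x * y⁻¹).s * p := by
      intro x y H p hp
      rw [Wreath.conj_s]
      simp only [map_mul, map_inv, Subgroup.coe_subtype] at H ⊢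
      have hp' : (y.s : L)⁻¹ * p * y.s ∈ topP c := by
        have := conjS_topP (y.s).2
        rw [← mem_conjS, this]; exact hp
      have := H _ hp'
      calc p * ((y.s : L) * x.s * (y.s : L)⁻¹) =
            (y.s : L) * (((y.s : L)⁻¹ * p * y.s) * x.s) * (y.s : L)⁻¹ := by group
        _ = (y.s : L) * (x.s * ((y.s : L)⁻¹ * p * y.s)) * (y.s : L)⁻¹ := by rw [this]
        _ = ((y.s : L) * x.s * (y.s : L)⁻¹) * p := by group
    by_cases H : ∀ p ∈ topP c, p * (stab c).subtype x.s = (stab c).subtype x.s * p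
    · rw [h1 _ (key x y H), h1 x H, map_mul, map_mul, map_inv, hΦ]
    · rw [h2 x H, h2]
      intro H'
      apply H
      have := key (y * x * y⁻¹) y⁻¹ H'
      have e : y⁻¹ * (y * x * y⁻¹) * y⁻¹⁻¹ = x := by group
      rw [e] at this
      exact this
  have hΦι : ∀ x y, (fun t => Φ (iota c G Ω t)) (y * x * y⁻¹) =
      (fun t => Φ (iota c G Ω t)) x := by
    intro x y
    show Φ (iota c G Ω (y * x * y⁻¹)) = Φ (iota c G Ω x)
    rw [map_mul, map_mul, map_inv, hΦ]
  rw [← hval _ hΦι, ← hval _ hΨ]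
  -- the character of the stabiliser
  let e : Wreath G (Dl c Ω) (stab c) ≃* stab (topc c G Ω) :=
    (MonoidHom.ofInjective hinj).trans (MulEquiv.subgroupCongr hran)
  have he : ∀ t, ((e t : stab (topc c G Ω)) : Wreath G Ω L) = iota c G Ω t := fun t => rfl
  obtain ⟨a, ha, hae⟩ := exists_IrrS (stab (topc c G Ω)) (irr_comp_equiv e.symm hθ)
  have hae' : ∀ t, a (iota c G Ω t) = θ t := by
    intro t
    rw [← he, hae, MulEquiv.symm_apply_apply]
  have hoff : ∀ x, x ∉ Set.range (iota c G Ω) → a x = 0 := by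
    intro x hx
    apply ha.1
    rw [← hran]
    exact fun h => hx h
  have htrans : ∀ F : Wreath G Ω L → ℂ, val F a = val (fun t => F (iota c G Ω t)) θ := by
    intro F
    rw [val_eq, val_eq]
    congr 1
    · symm
      refine Fintype.sum_of_injective (iota c G Ω) hinj _ _ ?_ ?_
      · intro x hx
        rw [hoff x hx, mul_zero]
      · intro t
        rw [hae']
    · rw [← hae', map_one]
  have hR := hrestr ℓ M hℓM (Wreath G Ω L) (topc c G Ω) hpg hch a ha Φ hΦ hΦi
  rw [htrans, htrans] at hR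
  refine hR.trans (Cong.of_eq ?_)
  congr 1
  funext t
  have hiff : (∀ D ∈ topc c G Ω, ∀ y ∈ D, y * iota c G Ω t = iota c G Ω t * y) ↔
      ∀ p ∈ topP c, p * (stab c).subtype t.s = (stab c).subtype t.s * p := by
    constructor
    · intro H p hp
      rw [Subgroup.coe_subtype, ← iota_comm hp]
      refine H ((topP c).map Wreath.top) ?_ _ (Subgroup.mem_map_of_mem _ hp)
      exact Finset.mem_image_of_mem _ (H46.topP_mem hc2 hc3)
    · intro H D hD y hy
      obtain ⟨D', hD', rfl⟩ := Finset.mem_image.1 hD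
      obtain ⟨p, hp, rfl⟩ := Subgroup.mem_map.1 hy
      have hp' : p ∈ topP c := H46.le_topP hD' hp
      rw [iota_comm hp']
      exact H p hp'
  by_cases H : ∀ p ∈ topP c, p * (stab c).subtype t.s = (stab c).subtype t.s * p
  · rw [if_pos (hiff.2 H), h1 t H]
  · rw [if_neg (fun h => H (hiff.1 h)), h2 t H]

/-- the test on the wreath product itself -/
theorem test_self (htest : TestStmt) (hℓM : (ℓ : integralClosure ℤ ℂ) ∈ M)
    (hop : opCore ℓ G = ⊥) {αs : Ω → G → ℂ} (hαs : ∀ i, αs i ∈ DZ ℓ M G) {μ : L → ℂ}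
    (hμ : μ ∈ IrrS (LL L αs)) {h₀ : L} (hh : h₀ ∈ LL L αs) :
    Cong M (val (fun t => testT αs h₀ t) (et αs μ)) (uu αs * ulab (LL L αs) μ h₀) := by
  have hsit : Sit ℓ (id : Ω → Ω) (MonoidHom.id L) (MonoidHom.id (Wreath G Ω L))
      (⊥ : Subgroup L) := by
    refine ⟨IsPGroup.of_bot, fun x => rfl, Function.surjective_id, Function.injective_id,
      fun k i => rfl, ?_, ?_⟩
    · intro i i'
      constructor
      · intro h
        exact ⟨1, Subgroup.one_mem _, by rw [one_smul]; exact h⟩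
      · rintro ⟨p, hp, h⟩
        rw [Subgroup.mem_bot.1 hp, one_smul] at h
        exact h
    · intro k
      unfold conjS
      rw [Subgroup.map_bot]
  have htw : TwPair ℓ M (id : Ω → Ω) αs αs := by
    refine ⟨hαs, hαs, ?_, ?_, fun i => rfl⟩
    · intro i i' h
      exact congrArg αs h
    · intro i n hn g
      have h1 : Nat.card {i' : Ω // id i' = id i} = 1 := by
        rw [Nat.card_eq_one_iff_unique]
        exact ⟨⟨fun a b => Subtype.ext (a.2.trans b.2.symm)⟩, ⟨⟨i, rfl⟩⟩⟩
      rw [h1] at hn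
      rw [← hn, pow_one]
      rfl
  have h := (htest ℓ M hℓM G hop Ω L Ω L (id : Ω → Ω) (MonoidHom.id L)
    (MonoidHom.id (Wreath G Ω L)) ⊥ αs αs hsit htw μ hμ (by
      intro Φ hΦ hΦi Ψ h1 h2
      have : Ψ = fun t => Φ ((MonoidHom.id (Wreath G Ω L)) t) := by
        funext t
        apply h1
        intro p hp
        rw [Subgroup.mem_bot.1 hp, one_mul, mul_one]
      rw [this]
      exact Cong.refl _)).2 h₀ hh
  refine Cong.trans ?_ (h.trans (Cong.of_eq ?_))
  · exact Cong.refl _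
  · congr 1
    unfold ulab
    congr 1
    apply finsum_congr
    intro k
    have : ((∀ p ∈ (⊥ : Subgroup L), p * (MonoidHom.id L) k = (MonoidHom.id L) k * p) ∧
        ∃ u ∈ LL L αs, (MonoidHom.id L) k = u * h₀ * u⁻¹) ↔
        ∃ u ∈ LL L αs, k = u * h₀ * u⁻¹ := by
      constructor
      · exact fun h => h.2
      · intro h
        refine ⟨?_, h⟩
        intro p hp
        rw [Subgroup.mem_bot.1 hp, one_mul, mul_one]
    exact finsum_congr_Prop (propext this) fun _ => rfl

end main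

end Pool.Agent.Helper79_WRA.H62
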