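import Pool.Agent.Helper79_WRA.Basic
import Pool.Agent.Helper79_WRA.Stmt

/-!
WRA, module MZERO, part 1: conjugation of characters, counting of conjugating elements.
-/

open scoped BigOperators

noncomputable section

namespace Pool.Agent.Helper79_WRA.H62

open Pool.Agent.Helper51_AWC Pool.Agent.Helper79_WRA

section
variable {G Δ K : Type} [Group G] [Group K] [MulAction K Δ]

/-- conjugation as an isomorphism onto the conjugate subgroup -/
def conjE (g : G) (H : Subgroup G) : conjS g H ≃* H where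
  toFun y := ⟨g⁻¹ * y * g, mem_conjS.1 y.2⟩
  invFun x := ⟨g * x * g⁻¹, mem_conjS.2 (by simp [mul_assoc])⟩
  left_inv y := by apply Subtype.ext; simp [mul_assoc]
  right_inv x := by apply Subtype.ext; simp [mul_assoc]
  map_mul' x y := by apply Subtype.ext; simp [mul_assoc]

theorem IrrS_conj {H : Subgroup G} {a : G → ℂ} (ha : a ∈ IrrS H) (g : G) :
    (fun y => a (g⁻¹ * y * g)) ∈ IrrS (conjS g H) := by
  refine ⟨fun y hy => ha.1 _ fun h => hy (mem_conjS.2 h), ?_⟩
  exact irr_comp_equiv (conjE g H) ha.2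

/-- a character extended by zero is invariant under conjugation by its subgroup -/
theorem IrrS_class {H : Subgroup G} {a : G → ℂ} (ha : a ∈ IrrS H) {x : G} (hx : x ∈ H) (y : G) :
    a (x * y * x⁻¹) = a y := by
  by_cases hy : y ∈ H
  · exact irr_conj ha.2 ⟨y, hy⟩ ⟨x, hx⟩
  · rw [ha.1 y hy, ha.1]
    intro h
    apply hy
    have := H.mul_mem (H.mul_mem (H.inv_mem hx) h) hx
    simpa [mul_assoc] using this

theorem labF_conj [Finite G] {M : Ideal (integralClosure ℤ ℂ)} {a b : G → ℂ} {x : G}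
    (h : ∀ y, b (x * y * x⁻¹) = a y) : labF M b = labF M a := by
  classical
  have := Fintype.ofFinite G
  funext g
  unfold labF
  congr 1
  rw [omega_eq, omega_eq]
  have h1 : b 1 = a 1 := by
    rw [← h 1]; simp
  rw [h1]
  congr 1
  symm
  apply Fintype.sum_equiv (MulAut.conj x).toEquiv
  intro y
  have e1 : (MulAut.conj x).toEquiv y = x * y * x⁻¹ := rfl
  rw [e1, h]
  have e2 : IsConj g ((MonoidHom.id G) y) ↔ IsConj g ((MonoidHom.id G) (x * y * x⁻¹)) := by
    have hc : IsConj y (x * y * x⁻¹) := isConj_iff.2 ⟨x, rfl⟩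
    exact ⟨fun h' => IsConj.trans h' hc, fun h' => IsConj.trans h' hc.symm⟩
  simp only [e2]

/-- the element `x` carries the column `i` of `(v, α)` to the column `j` -/
def Carry (v : Finset (Δ → Subgroup G)) (α : Δ → G → ℂ) (i j : Δ) (x : G) : Prop :=
  (∀ R ∈ v, conjS x (R i) = R j) ∧ ∀ y, α j (x * y * x⁻¹) = α i y

theorem Carry.trans {v : Finset (Δ → Subgroup G)} {α : Δ → G → ℂ} {i j k : Δ} {x y : G}
    (h1 : Carry v α i j x) (h2 : Carry v α j k y) : Carry v α i k (y * x) := by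
  refine ⟨fun R hR => ?_, fun z => ?_⟩
  · rw [← conjS_conjS, h1.1 R hR, h2.1 R hR]
  · have e : y * x * z * (y * x)⁻¹ = y * (x * z * x⁻¹) * y⁻¹ := by group
    rw [e, h2.2, h1.2]

theorem Carry.symm {v : Finset (Δ → Subgroup G)} {α : Δ → G → ℂ} {i j : Δ} {x : G}
    (h1 : Carry v α i j x) : Carry v α j i x⁻¹ := by
  refine ⟨fun R hR => ?_, fun z => ?_⟩
  · rw [← h1.1 R hR, conjS_conjS, inv_mul_cancel, conjS_one]
  · rw [← h1.2]
    congr 1
    group

theorem Carry.refl (v : Finset (Δ → Subgroup G)) (α : Δ → G → ℂ) (i : Δ) : Carry v α i i 1 := by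
  refine ⟨fun R _ => conjS_one _, fun z => ?_⟩
  simp

theorem carry_self {v : Finset (Δ → Subgroup G)} {α : Δ → G → ℂ} (hα : IsChars v α) {j : Δ}
    {x : G} : Carry v α j j x ↔ x ∈ colStab v j := by
  constructor
  · intro h
    exact mem_colStab.2 h.1
  · intro h
    exact ⟨mem_colStab.1 h, IrrS_class (hα j) h⟩

/-- the number of elements carrying a column to another one -/
theorem card_carry {v : Finset (Δ → Subgroup G)} {α : Δ → G → ℂ}
    (hα : IsChars v α) {i j : Δ} {x₀ : G} (h : Carry v α i j x₀) :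
    Nat.card {x : G // Carry v α i j x} = Nat.card (colStab v j) := by
  apply Nat.card_congr
  refine ⟨fun x => ⟨x.1 * x₀⁻¹, (carry_self hα).1 (h.symm.trans x.2)⟩,
    fun y => ⟨y.1 * x₀, h.trans ((carry_self hα).2 y.2)⟩, ?_, ?_⟩
  · intro x; apply Subtype.ext; simp
  · intro y; apply Subtype.ext; simp

theorem le_topSt_iff {v : Finset (Δ → Subgroup G)} {α : Δ → G → ℂ} {U : Subgroup K} :
    U ≤ topSt K v α ↔ ∀ k ∈ U, ∀ j, ∃ x, Carry v α (k⁻¹ • j) j x := by
  constructor
  · intro h k hk j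
    exact mem_topSt.1 (h hk) j
  · intro h k hk
    exact mem_topSt.2 (h k hk)

theorem carry_orbit {v : Finset (Δ → Subgroup G)} {α : Δ → G → ℂ} {U : Subgroup K}
    (h : U ≤ topSt K v α) {i j : Δ} (hj : j ∈ MulAction.orbit U i) : ∃ x, Carry v α i j x := by
  obtain ⟨k, rfl⟩ := hj
  have h1 := le_topSt_iff.1 h k k.2 ((k : U) • i)
  obtain ⟨x, hx⟩ := h1
  refine ⟨x, ?_⟩
  have e : (k : K)⁻¹ • (k • i) = i := by
    rw [Subgroup.smul_def, inv_smul_smul]
  rw [e] at hx
  exact hx

end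

end Pool.Agent.Helper79_WRA.H62
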