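import Pool.Agent.Helper62_WRA.Mzero1

/-!
WRA, module MZERO, part 2: the order embedding and the bijection for fixed conjugating elements.
-/

open scoped BigOperators

noncomputable section

namespace Pool.Agent.Helper79_WRA.H62

open Pool.Agent.Helper51_AWC Pool.Agent.Helper79_WRA

/-- restricting a sum over chains to the chains inside a subset -/
theorem sum_chains_filter {A : Type*} [PartialOrder A] (s : Finset A) (b : A) (p : A → Prop)
    [DecidablePred p] (F : Finset A → ℤ) (hF : ∀ v ∈ chainsOn s b, (∃ R ∈ v, ¬ p R) → F v = 0) :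
    ∑ v ∈ chainsOn s b, F v = ∑ v ∈ chainsOn (s.filter p) b, F v := by
  symm
  apply Finset.sum_subset
  · intro v hv
    obtain ⟨h1, h2, h3⟩ := mem_chainsOn.1 hv
    exact mem_chainsOn.2 ⟨fun x hx => (Finset.mem_filter.1 (h1 hx)).1, h2, h3⟩
  · intro v hv hn
    apply hF v hv
    by_contra hc
    push Not at hc
    apply hn
    obtain ⟨h1, h2, h3⟩ := mem_chainsOn.1 hv
    exact mem_chainsOn.2 ⟨fun x hx => Finset.mem_filter.2 ⟨h1 hx, hc x hx⟩, h2, h3⟩

open Classical in
/-- the first projections -/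
def im1 {A B : Type*} (d : Finset (A × B)) : Finset A := d.image Prod.fst

open Classical in
/-- the second projections -/
def im2 {A B : Type*} (d : Finset (A × B)) : Finset B := d.image Prod.snd

theorem mem_im1 {A B : Type*} {d : Finset (A × B)} {x : A} : x ∈ im1 d ↔ ∃ p ∈ d, p.1 = x := by
  classical
  unfold im1
  exact Finset.mem_image

theorem mem_im2 {A B : Type*} {d : Finset (A × B)} {x : B} : x ∈ im2 d ↔ ∃ p ∈ d, p.2 = x := by
  classical
  unfold im2
  exact Finset.mem_image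

section
variable {G Δ : Type} [Group G]

open Classical in
/-- the function on `Δ` given by one subgroup on `ω` (conjugated by `g j`) and a function outside
of `ω` -/
def psiFun (ω : Set Δ) (g : Δ → G) (p : Subgroup G × ({j // j ∉ ω} → Subgroup G)) :
    Δ → Subgroup G := fun j => if h : j ∈ ω then conjS (g j) p.1 else p.2 ⟨j, h⟩

theorem psiFun_pos {ω : Set Δ} {g : Δ → G} {p : Subgroup G × ({j // j ∉ ω} → Subgroup G)} {j : Δ}
    (h : j ∈ ω) : psiFun ω g p j = conjS (g j) p.1 := by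
  unfold psiFun
  rw [dif_pos h]

theorem psiFun_neg {ω : Set Δ} {g : Δ → G} {p : Subgroup G × ({j // j ∉ ω} → Subgroup G)} {j : Δ}
    (h : j ∉ ω) : psiFun ω g p j = p.2 ⟨j, h⟩ := by
  unfold psiFun
  rw [dif_neg h]

/-- `psiFun` as an order embedding -/
def psi (ω : Set Δ) (j₀ : Δ) (hj : j₀ ∈ ω) (g : Δ → G) (hg : g j₀ = 1) :
    Subgroup G × ({j // j ∉ ω} → Subgroup G) ↪o (Δ → Subgroup G) :=
  OrderEmbedding.ofMapLEIff (psiFun ω g) (by
    intro p q
    constructor
    · intro h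
      constructor
      · have := h j₀
        rw [psiFun_pos hj, psiFun_pos hj, hg, conjS_one, conjS_one] at this
        exact this
      · intro j
        have := h j
        rw [psiFun_neg j.2, psiFun_neg j.2] at this
        exact this
    · intro h j
      by_cases hj' : j ∈ ω
      · rw [psiFun_pos hj', psiFun_pos hj']
        exact conjS_mono.2 h.1
      · rw [psiFun_neg hj', psiFun_neg hj']
        exact h.2 ⟨j, hj'⟩)

variable {ω : Set Δ} {j₀ : Δ} {hj : j₀ ∈ ω} {g : Δ → G} {hg : g j₀ = 1}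

theorem psi_pos {p : Subgroup G × ({j // j ∉ ω} → Subgroup G)} {j : Δ} (h : j ∈ ω) :
    psi ω j₀ hj g hg p j = conjS (g j) p.1 := psiFun_pos h

theorem psi_neg {p : Subgroup G × ({j // j ∉ ω} → Subgroup G)} {j : Δ} (h : j ∉ ω) :
    psi ω j₀ hj g hg p j = p.2 ⟨j, h⟩ := psiFun_neg h

theorem psi_base {p : Subgroup G × ({j // j ∉ ω} → Subgroup G)} :
    psi ω j₀ hj g hg p j₀ = p.1 := by
  rw [psi_pos hj, hg, conjS_one]

theorem psi_bot : psi ω j₀ hj g hg (⊥, fun _ => ⊥) = fun _ => ⊥ := by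
  funext j
  by_cases h : j ∈ ω
  · rw [psi_pos h]; exact Subgroup.map_bot _
  · rw [psi_neg h]

theorem conj_mem_psub {ℓ : ℕ} {x : G} {D : Subgroup G} [Finite G] (h : D ∈ psub ℓ G) :
    conjS x D ∈ psub ℓ G := by
  rw [mem_psub] at h ⊢
  refine ⟨?_, conjS_pgroup h.2⟩
  rw [← opCore_conj ℓ x]
  exact conjS_mono.2 h.1

open Classical in
theorem map_psi (ℓ : ℕ) [Finite G] [Fintype Δ] :
    (psub ℓ G ×ˢ boxes ℓ G {j // j ∉ ω}).map (psi ω j₀ hj g hg).toEmbedding =
      (boxes ℓ G Δ).filter (fun R => ∀ j ∈ ω, conjS (g j) (R j₀) = R j) := by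
  ext R
  simp only [Finset.mem_map, Finset.mem_filter, Finset.mem_product]
  constructor
  · rintro ⟨p, ⟨hp1, hp2⟩, rfl⟩
    refine ⟨mem_boxes.2 fun j => ?_, fun j hjj => ?_⟩
    · show psi ω j₀ hj g hg p j ∈ _
      by_cases h : j ∈ ω
      · rw [psi_pos h]; exact conj_mem_psub hp1
      · rw [psi_neg h]; exact mem_boxes.1 hp2 _
    · show conjS (g j) (psi ω j₀ hj g hg p j₀) = psi ω j₀ hj g hg p j
      rw [psi_base, psi_pos hjj]
  · rintro ⟨h1, h2⟩
    refine ⟨(R j₀, fun j => R j), ⟨mem_boxes.1 h1 j₀, mem_boxes.2 fun j => mem_boxes.1 h1 _⟩, ?_⟩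
    funext j
    show psi ω j₀ hj g hg (R j₀, fun j => R j) j = R j
    by_cases h : j ∈ ω
    · rw [psi_pos h]; exact h2 j h
    · rw [psi_neg h]

open Classical in
theorem colStab_psi_base (d : Finset (Subgroup G × ({j // j ∉ ω} → Subgroup G))) :
    colStab (d.map (psi ω j₀ hj g hg).toEmbedding) j₀ = stab (im1 d) := by
  ext x
  rw [mem_colStab, mem_stab]
  simp only [Finset.mem_map, mem_im1, mem_im2]
  constructor
  · rintro h D ⟨p, hp, rfl⟩
    have := h _ ⟨p, hp, rfl⟩
    have e : (psi ω j₀ hj g hg).toEmbedding p j₀ = p.1 := psi_base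
    rwa [e] at this
  · rintro h R ⟨p, hp, rfl⟩
    have e : (psi ω j₀ hj g hg).toEmbedding p j₀ = p.1 := psi_base
    rw [e]
    exact h _ ⟨p, hp, rfl⟩

theorem conjS_eq_iff {x y : G} {D : Subgroup G} :
    conjS x (conjS y D) = conjS y D ↔ conjS (y⁻¹ * x * y) D = D := by
  rw [conjS_conjS]
  constructor
  · intro h
    have := congrArg (conjS y⁻¹) h
    rw [conjS_conjS, conjS_conjS, inv_mul_cancel, conjS_one] at this
    rw [mul_assoc]; exact this
  · intro h
    have := congrArg (conjS y) h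
    rw [conjS_conjS] at this
    rw [← this]
    congr 1
    group

open Classical in
theorem colStab_psi_pos (d : Finset (Subgroup G × ({j // j ∉ ω} → Subgroup G))) {j : Δ}
    (h : j ∈ ω) : colStab (d.map (psi ω j₀ hj g hg).toEmbedding) j =
      conjS (g j) (stab (im1 d)) := by
  ext x
  rw [mem_colStab, mem_conjS, mem_stab]
  simp only [Finset.mem_map, mem_im1, mem_im2]
  constructor
  · rintro h' D ⟨p, hp, rfl⟩
    have := h' _ ⟨p, hp, rfl⟩
    have e : (psi ω j₀ hj g hg).toEmbedding p j = conjS (g j) p.1 := psi_pos h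
    rw [e] at this
    exact conjS_eq_iff.1 this
  · rintro h' R ⟨p, hp, rfl⟩
    have e : (psi ω j₀ hj g hg).toEmbedding p j = conjS (g j) p.1 := psi_pos h
    rw [e]
    exact conjS_eq_iff.2 (h' _ ⟨p, hp, rfl⟩)

open Classical in
theorem colStab_psi_neg (d : Finset (Subgroup G × ({j // j ∉ ω} → Subgroup G))) {j : Δ}
    (h : j ∉ ω) : colStab (d.map (psi ω j₀ hj g hg).toEmbedding) j =
      colStab (im2 d) ⟨j, h⟩ := by
  ext x
  rw [mem_colStab, mem_colStab]
  simp only [Finset.mem_map, mem_im1, mem_im2]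
  constructor
  · rintro h' R ⟨p, hp, rfl⟩
    have := h' _ ⟨p, hp, rfl⟩
    have e : (psi ω j₀ hj g hg).toEmbedding p j = p.2 ⟨j, h⟩ := psi_neg h
    rwa [e] at this
  · rintro h' R ⟨p, hp, rfl⟩
    have e : (psi ω j₀ hj g hg).toEmbedding p j = p.2 ⟨j, h⟩ := psi_neg h
    rw [e]
    exact h' _ ⟨p, hp, rfl⟩

end

end Pool.Agent.Helper79_WRA.H62
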