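import Pool.Agent.Helper62_WRA.Mzero2

/-!
WRA, module MZERO, part 3: the characters for fixed conjugating elements.
-/

open scoped BigOperators

noncomputable section

namespace Pool.Agent.Helper79_WRA.H62

open Pool.Agent.Helper51_AWC Pool.Agent.Helper79_WRA

section
variable {G Δ K : Type} [Group G] [Group K] [MulAction K Δ]

/-- the stability condition outside of `ω` -/
def Bc (ω : Set Δ) (U : Subgroup K) (c : Finset ({j // j ∉ ω} → Subgroup G))
    (α : {j // j ∉ ω} → G → ℂ) : Prop :=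
  ∀ k ∈ U, ∀ i j : {j // j ∉ ω}, (i : Δ) = k⁻¹ • (j : Δ) → ∃ x, Carry c α i j x

open Classical in
/-- the datum on `Δ` -/
def dext (M : Ideal (integralClosure ℤ ℂ)) (ω : Set Δ) (b : G → FF M)
    (c : Finset ({j // j ∉ ω} → Subgroup G)) (α : {j // j ∉ ω} → G → ℂ) :
    Δ → (G → FF M) × FF M :=
  fun j => if h : j ∈ ω then (b, 0) else dat M c α ⟨j, h⟩

open Classical in
/-- the characters on `Δ` from one on `ω` and those outside -/
def glue (ω : Set Δ) (g : Δ → G) (q : (G → ℂ) × ({j // j ∉ ω} → G → ℂ)) : Δ → G → ℂ :=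
  fun j => if h : j ∈ ω then (fun y => q.1 ((g j)⁻¹ * y * g j)) else q.2 ⟨j, h⟩

theorem glue_pos {ω : Set Δ} {g : Δ → G} {q : (G → ℂ) × ({j // j ∉ ω} → G → ℂ)} {j : Δ}
    (h : j ∈ ω) : glue ω g q j = fun y => q.1 ((g j)⁻¹ * y * g j) := by
  unfold glue
  rw [dif_pos h]

theorem glue_neg {ω : Set Δ} {g : Δ → G} {q : (G → ℂ) × ({j // j ∉ ω} → G → ℂ)} {j : Δ}
    (h : j ∉ ω) : glue ω g q j = q.2 ⟨j, h⟩ := by
  unfold glue
  rw [dif_neg h]

variable {ω : Set Δ} {j₀ : Δ} {hj : j₀ ∈ ω} {g : Δ → G} {hg : g j₀ = 1}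

open Classical in
theorem carry_psi_neg (d : Finset (Subgroup G × ({j // j ∉ ω} → Subgroup G)))
    (α : Δ → G → ℂ) (i j : {j // j ∉ ω}) (x : G) :
    Carry (d.map (psi ω j₀ hj g hg).toEmbedding) α i j x ↔
      Carry (im2 d) (fun j => α j) i j x := by
  unfold Carry
  refine and_congr ?_ Iff.rfl
  simp only [Finset.mem_map, mem_im1, mem_im2]
  constructor
  · rintro h' R ⟨p, hp, rfl⟩
    have := h' _ ⟨p, hp, rfl⟩
    have e1 : (psi ω j₀ hj g hg).toEmbedding p j = p.2 j := psi_neg j.2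
    have e2 : (psi ω j₀ hj g hg).toEmbedding p i = p.2 i := psi_neg i.2
    rwa [e1, e2] at this
  · rintro h' R ⟨p, hp, rfl⟩
    have e1 : (psi ω j₀ hj g hg).toEmbedding p j = p.2 j := psi_neg j.2
    have e2 : (psi ω j₀ hj g hg).toEmbedding p i = p.2 i := psi_neg i.2
    rw [e1, e2]
    exact h' _ ⟨p, hp, rfl⟩

open Classical in
theorem dat_eq [Finite G] {ℓ : ℕ} {M : Ideal (integralClosure ℤ ℂ)}
    {d : Finset (Subgroup G × ({j // j ∉ ω} → Subgroup G))} {α : Δ → G → ℂ}
    {β : Δ → G → FF M} (hβ : ∀ j ∈ ω, β j = β j₀)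
    (hd : im1 d ∈ chainsOn (psub ℓ G) ⊥)
    (h2 : ∀ d ∈ chainsOn (psub ℓ G) ⊥, ∀ a ∈ IrrS (stab d), labF M a = β j₀ →
      red M ((Nat.card (stab d) : ℂ) / a 1) = 0)
    (hα : IsChars (d.map (psi ω j₀ hj g hg).toEmbedding) α)
    (hc : ∀ j ∈ ω, Carry (d.map (psi ω j₀ hj g hg).toEmbedding) α j₀ j (g j))
    (hlab : ∀ j, labF M (α j) = β j) :
    dat M (d.map (psi ω j₀ hj g hg).toEmbedding) α =
      dext M ω (β j₀) (im2 d) (fun j => α j) := by
  funext j
  by_cases h : j ∈ ω
  · have e : dext M ω (β j₀) (im2 d) (fun j => α j) j = (β j₀, 0) := by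
      unfold dext
      rw [dif_pos h]
    rw [e]
    refine Prod.ext ?_ ?_
    · show labF M (α j) = β j₀
      rw [hlab, hβ j h]
    · show red M ((Nat.card (colStab (d.map (psi ω j₀ hj g hg).toEmbedding) j) : ℂ) / α j 1) = 0
      have e1 : α j 1 = α j₀ 1 := by
        have := (hc j h).2 1
        simpa using this
      have e2 : Nat.card (colStab (d.map (psi ω j₀ hj g hg).toEmbedding) j) =
          Nat.card (stab (im1 d)) := by
        rw [colStab_psi_pos d h]
        exact Nat.card_congr (conjE (g j) _).toEquiv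
      rw [e1, e2]
      refine h2 _ hd (α j₀) ?_ (hlab j₀)
      have := hα j₀
      rwa [colStab_psi_base] at this
  · have e : dext M ω (β j₀) (im2 d) (fun j => α j) j =
        dat M (im2 d) (fun j => α j) ⟨j, h⟩ := by
      unfold dext
      rw [dif_neg h]
    rw [e]
    unfold dat
    rw [colStab_psi_neg d h]

open Classical in
/-- the bijection of characters -/
theorem card_chars [Finite G] [Fintype Δ] {ℓ : ℕ} {M : Ideal (integralClosure ℤ ℂ)}
    {U : Subgroup K} (hω : ω = MulAction.orbit U j₀)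
    {d : Finset (Subgroup G × ({j // j ∉ ω} → Subgroup G))}
    {β : Δ → G → FF M} {P : (Δ → (G → FF M) × FF M) → Prop} (hβ : ∀ j ∈ ω, β j = β j₀)
    (hd : im1 d ∈ chainsOn (psub ℓ G) ⊥)
    (h2 : ∀ d ∈ chainsOn (psub ℓ G) ⊥, ∀ a ∈ IrrS (stab d), labF M a = β j₀ →
      red M ((Nat.card (stab d) : ℂ) / a 1) = 0) :
    ((charsOf (d.map (psi ω j₀ hj g hg).toEmbedding)).filter (fun α =>
      (U ≤ topSt K (d.map (psi ω j₀ hj g hg).toEmbedding) α ∧ (∀ j, labF M (α j) = β j) ∧
        P (dat M (d.map (psi ω j₀ hj g hg).toEmbedding) α)) ∧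
      ∀ j ∈ ω, Carry (d.map (psi ω j₀ hj g hg).toEmbedding) α j₀ j (g j))).card =
    ((IrrS_finite (stab (im1 d))).toFinset.filter (fun a => labF M a = β j₀)).card *
    ((charsOf (im2 d)).filter (fun α => Bc ω U (im2 d) α ∧
      (∀ j : {j // j ∉ ω}, labF M (α j) = β j) ∧
      P (dext M ω (β j₀) (im2 d) α))).card := by
  have hinv : ∀ k ∈ U, ∀ j : Δ, j ∈ ω ↔ k⁻¹ • j ∈ ω := by
    intro k hk j
    rw [hω]
    constructor
    · rintro ⟨u, rfl⟩
      exact ⟨⟨k⁻¹, U.inv_mem hk⟩ * u, mul_smul _ _ _⟩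
    · rintro ⟨u, hu⟩
      refine ⟨⟨k, hk⟩ * u, ?_⟩
      have hu' : u • j₀ = k⁻¹ • j := hu
      show ((⟨k, hk⟩ : U) * u) • j₀ = j
      rw [mul_smul, hu', Subgroup.smul_def, smul_inv_smul]
  rw [← Finset.card_product]
  apply Finset.card_nbij' (i := fun α => (α j₀, fun j : {j // j ∉ ω} => α j))
    (j := fun q => glue ω g q)
  · intro α hα
    rw [Finset.mem_coe, Finset.mem_filter, mem_charsOf] at hα
    obtain ⟨hα, ⟨hU, hlab, hP⟩, hc⟩ := hα
    rw [Finset.mem_coe, Finset.mem_product, Finset.mem_filter, Finset.mem_filter, mem_charsOf,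
      Set.Finite.mem_toFinset]
    refine ⟨⟨?_, hlab j₀⟩, ?_, ?_, fun j => hlab j, ?_⟩
    · have := hα j₀
      rwa [colStab_psi_base] at this
    · intro j
      have := hα j
      rw [colStab_psi_neg d j.2] at this
      exact this
    · intro k hk i j hij
      obtain ⟨x, hx⟩ := le_topSt_iff.1 hU k hk j
      refine ⟨x, ?_⟩
      rw [← hij] at hx
      exact (carry_psi_neg d α i j x).1 hx
    · rw [dat_eq hβ hd h2 hα hc hlab] at hP
      exact hP
  · rintro ⟨a, α⟩ hq
    rw [Finset.mem_coe, Finset.mem_product, Finset.mem_filter, Finset.mem_filter, mem_charsOf,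
      Set.Finite.mem_toFinset] at hq
    obtain ⟨⟨ha, hla⟩, hα, hB, hlab, hP⟩ := hq
    rw [Finset.mem_coe, Finset.mem_filter, mem_charsOf]
    have hres : (fun j : {j // j ∉ ω} => glue ω g (a, α) j) = α := by
      funext j
      exact glue_neg j.2
    have hch : IsChars (d.map (psi ω j₀ hj g hg).toEmbedding) (glue ω g (a, α)) := by
      intro j
      by_cases h : j ∈ ω
      · rw [glue_pos h, colStab_psi_pos d h]
        exact IrrS_conj ha (g j)
      · rw [glue_neg h, colStab_psi_neg d h]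
        exact hα ⟨j, h⟩
    have hcar : ∀ j ∈ ω, Carry (d.map (psi ω j₀ hj g hg).toEmbedding) (glue ω g (a, α)) j₀ j
        (g j) := by
      intro j h
      refine ⟨?_, fun y => ?_⟩
      · intro R hR
        obtain ⟨p, hp, rfl⟩ := Finset.mem_map.1 hR
        have e1 : (psi ω j₀ hj g hg).toEmbedding p j₀ = p.1 := psi_base
        have e2 : (psi ω j₀ hj g hg).toEmbedding p j = conjS (g j) p.1 := psi_pos h
        rw [e1, e2]
      · rw [glue_pos h, glue_pos hj, hg]
        show a _ = a _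
        congr 1
        group
    have hl : ∀ j, labF M (glue ω g (a, α) j) = β j := by
      intro j
      by_cases h : j ∈ ω
      · rw [labF_conj (hcar j h).2, glue_pos hj, hg, hβ j h, ← hla]
        congr 1
        funext y
        show a _ = a y
        congr 1
        group
      · rw [glue_neg h]
        exact hlab ⟨j, h⟩
    refine ⟨hch, ⟨?_, hl, ?_⟩, hcar⟩
    · rw [le_topSt_iff]
      intro k hk j
      by_cases h : j ∈ ω
      · have h' := (hinv k hk j).1 h
        exact ⟨_, (hcar _ h').symm.trans (hcar j h)⟩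
      · have h' : k⁻¹ • j ∉ ω := fun hc => h ((hinv k hk j).2 hc)
        obtain ⟨x, hx⟩ := hB k hk ⟨k⁻¹ • j, h'⟩ ⟨j, h⟩ rfl
        refine ⟨x, (carry_psi_neg d (glue ω g (a, α)) ⟨k⁻¹ • j, h'⟩ ⟨j, h⟩ x).2 ?_⟩
        rw [hres]
        exact hx
    · rw [dat_eq hβ hd h2 hch hcar hl, hres]
      exact hP
  · intro α hα
    rw [Finset.mem_coe, Finset.mem_filter, mem_charsOf] at hα
    obtain ⟨hα, _, hc⟩ := hα
    funext j
    show glue ω g (α j₀, fun j : {j // j ∉ ω} => α j) j = α j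
    by_cases h : j ∈ ω
    · rw [glue_pos h]
      funext y
      show α j₀ _ = α j y
      rw [← (hc j h).2]
      congr 1
      group
    · rw [glue_neg h]
  · rintro ⟨a, α⟩ hq
    refine Prod.ext ?_ ?_
    · show glue ω g (a, α) j₀ = a
      rw [glue_pos hj, hg]
      funext y
      show a _ = a y
      congr 1
      group
    · funext j
      exact glue_neg j.2

end

end Pool.Agent.Helper79_WRA.H62
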